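import Pool.Agent.H17.VG.TargetsC

/-!
# MP_70ba79_ag: targets of the board `vyc_modules`, part D (height inequality)

In all targets `poleOrder v x` is the largest order of a pole of the coordinates of `x`; since
`x p = 1` it is minus the smallest order of a coordinate.
-/

set_option autoImplicit false

namespace Pool.Agent.H17.VG

open MvPolynomial SC Pool.Agent.H27.LV

/-- derivations of `K` which map the constants to constants -/
def PresK (k : Type) {R K : Type} [Field R] [Field k] [Field K] [Algebra k K] [Algebra R K]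
    (θ : Derivation R K K) : Prop :=
  ∀ a : k, ∃ b : k, θ (algebraMap k K a) = algebraMap k K b

/-- D1: such derivations are bounded on the valuation rings (see H62.FR.BND for the case of
derivations which vanish on `k`) -/
def T_D0 : Prop := ∀ (R k K : Type) [Field R] [Field k] [CharZero k] [Field K] [Algebra k K]
  [Algebra R K] [Algebra.EssFiniteType k K], Algebra.trdeg k K = 1 →
  ∀ θ : Derivation R K K, PresK k θ → ∀ v : DV k K, ∃ B : ℤ, ∀ z, 0 ≤ v.ord z → ge v B (θ z)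

/-- D2: local lifts: subtracting a multiple of `D` one gets a derivation which does not decrease
the order at `v` -/
def T_LL : Prop := ∀ (R k K : Type) [Field R] [Field k] [IsAlgClosed k] [CharZero k] [Field K]
  [Algebra k K] [Algebra R K] [Algebra.EssFiniteType k K], Algebra.trdeg k K = 1 →
  ∀ θ : Derivation R K K, PresK k θ → ∀ D : Derivation k K K, D ≠ 0 → ∀ (v : DV k K) (z : K),
  ge v (v.ord z) (θ z - θ v.unif / D v.unif * D z)

/-- D3: first estimate of the determinant, at all places. Columns: replace `opV (τ c) x` by its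
local lift (column operation with `D x`), and `D x` by `D x - (D t / t) x`, `t` a power of the
uniformizer (column operation with `x`). -/
def T_DA : Prop := ∀ (R k K : Type) [Field R] [Field k] [IsAlgClosed k] [CharZero k] [Field K]
  [Algebra k K] [Algebra R K] [Algebra.EssFiniteType k K], Algebra.trdeg k K = 1 →
  ∀ (n s : ℕ) (D : Derivation k K K), D ≠ 0 → ∀ (x : Fin (n + 1) → K) (p : Fin (n + 1)), x p = 1 →
  ∀ (ι : Type) [Fintype ι] [DecidableEq ι] (τ : ι → Op R K n) (i : ι → Fin (n + 1))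
    (j : ι → Fin s) (e0 : ι ⊕ Fin 2 ≃ Fin (n + 1) ⊕ Fin s), (∀ c, RatOp k (τ c)) →
  ∀ v : DV k K, ge v (ordD v D - (n + 1 + s) * poleOrder v x)
    ((bigM D x τ i j).submatrix e0 id).det

/-- D4: the gradient of a smooth form has the exact order at each place -/
def T_GR : Prop := ∀ (k K : Type) [Field k] [IsAlgClosed k] [CharZero k] [Field K] [Algebra k K]
  [Algebra.EssFiniteType k K], Algebra.trdeg k K = 1 → ∀ (n e : ℕ)
  (F : MvPolynomial (Fin (n + 1)) k), F.IsHomogeneous (e + 1) →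
  (∀ z : Fin (n + 1) → k, z ≠ 0 → ∃ j, eval z (pderiv j F) ≠ 0) →
  ∀ (x : Fin (n + 1) → K) (p : Fin (n + 1)), x p = 1 → ∀ v : DV k K,
  (∀ j, ge v (-(e * poleOrder v x)) (eval x (pderiv j (up K F)))) ∧
  ∃ j, eval x (pderiv j (up K F)) ≠ 0 ∧
    v.ord (eval x (pderiv j (up K F))) = -(e * poleOrder v x)

/-- D5: second estimate of the determinant: after column operations with `D x` as in D3, multiply
the row `j0` (where `∂_j0 F (x)` has the exact order) by `∂_j0 F (x)`, add `∂_j F (x)` times the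
other rows and `Q_b (x)` times the extra rows. The row becomes `u (θ, D u / u, e + 1)`. -/
def T_DB : Prop := ∀ (R k K : Type) [Field R] [Field k] [IsAlgClosed k] [CharZero k] [Field K]
  [Algebra k K] [Algebra R K] [Algebra.EssFiniteType k K], Algebra.trdeg k K = 1 →
  ∀ (n e s : ℕ) (F : MvPolynomial (Fin (n + 1)) k), F.IsHomogeneous (e + 1) →
  (∀ z : Fin (n + 1) → k, z ≠ 0 → ∃ j, eval z (pderiv j F) ≠ 0) →
  ∀ (D : Derivation k K K), D ≠ 0 → ∀ (x : Fin (n + 1) → K) (p : Fin (n + 1)), x p = 1 →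
  eval x (up K F) ≠ 0 → ∀ (Q : Fin s → MvPolynomial (Fin (n + 1)) k) (ι : Type) [Fintype ι]
    [DecidableEq ι] (τ : ι → Op R K n) (i : ι → Fin (n + 1)) (j : ι → Fin s)
    (e0 : ι ⊕ Fin 2 ≃ Fin (n + 1) ⊕ Fin s), (∀ c, RatOp k (τ c)) →
  (∀ c, opF (τ c) (up K F) = X (i c) * up K (Q (j c))) →
  ∀ v : DV k K, ge v (v.ord (eval x (up K F)) + (e + 1) * poleOrder v x -
      (n + 1 + s) * poleOrder v x - 1 + ordD v D) ((bigM D x τ i j).submatrix e0 id).det

/-- D6: summation over all places -/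
def T_SU2 : Prop := ∀ (k K : Type) [Field k] [IsAlgClosed k] [CharZero k] [Field K] [Algebra k K]
  [Algebra.EssFiniteType k K], Algebra.trdeg k K = 1 → ∀ (n N d : ℕ) (D : Derivation k K K),
  D ≠ 0 → ∀ (x : Fin (n + 1) → K) (u : K), u ≠ 0 → ∀ S : Finset (DV k K),
  (∀ v, v ∉ S → v.ord u = -(d * poleOrder v x)) → ∀ (κ : Type) [Fintype κ] (P : κ → K) (c0 : κ),
  P c0 ≠ 0 → (∀ (v : DV k K) c, ge v (ordD v D - N * poleOrder v x) (P c)) →
  (∀ (v : DV k K) c, ge v (v.ord u + d * poleOrder v x - N * poleOrder v x - 1 + ordD v D)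
    (P c)) →
  (deg k (fun c => P c / P c0) : ℤ) + ((d : ℤ) - N) * deg k x ≤ canDeg D + S.card

/-- D7: choice of columns, first case -/
def T_NA : Prop := ∀ (R k K : Type) [Field R] [Field k] [Field K] [CharZero K]
  [Algebra k K] [Algebra R K] (n e s : ℕ) (F : MvPolynomial (Fin (n + 1)) K)
  (D : Derivation k K K) (D' : Derivation R K K) (x : Fin (n + 1) → K) (p : Fin (n + 1)),
  x p = 1 → Sys (e + 1) F D' → (∀ z, D' z = D z) → Indep x (fun i => D (x i)) →
  ∀ (Q : Fin s → MvPolynomial (Fin (n + 1)) K) (τ : Fin (n + 1) → Fin s → Op R K n),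
  (∀ i j, opF (τ i j) F = X i * Q j) →
  Module.finrank K (Ut R F x (PQ x Q)) = n + 1 →
  ∃ (T : Finset (Fin (n + 1) × Fin s)) (e0 : T ⊕ Fin 2 ≃ Fin (n + 1) ⊕ Fin s),
    ((bigM D x (fun c : T => τ c.1.1 c.1.2) (fun c => c.1.1) (fun c => c.1.2)).submatrix
      e0 id).det ≠ 0

/-- D8: choice of columns, second case: one more form `Q s`, with two columns `a`, `b` -/
def T_NB : Prop := ∀ (R k K : Type) [Field R] [Field k] [Field K] [CharZero K]
  [Algebra k K] [Algebra R K] (n e s : ℕ) (F : MvPolynomial (Fin (n + 1)) K)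
  (D : Derivation k K K) (D' : Derivation R K K) (x : Fin (n + 1) → K) (p : Fin (n + 1)),
  x p = 1 → Sys (e + 1) F D' → (∀ z, D' z = D z) → Indep x (fun i => D (x i)) →
  ∀ (Q : Fin (s + 1) → MvPolynomial (Fin (n + 1)) K) (τ : Fin (n + 1) → Fin (s + 1) → Op R K n),
  (∀ i j, opF (τ i j) F = X i * Q j) →
  Module.finrank K (Ut R F x (PQ x fun j : Fin s => Q j.castSucc)) = n →
  (∃ ξ : Fin (n + 1) → K, ∑ i, ξ i * x i = 0 ∧
    ∑ i, ξ i • opV (τ i (Fin.last s)) x ∉ Ut R F x (PQ x fun j : Fin s => Q j.castSucc)) →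
  ∃ (T : Finset (Fin (n + 1) × Fin s))
    (e0 : (T ⊕ Fin 2) ⊕ Fin 2 ≃ Fin (n + 1) ⊕ Fin (s + 1)) (y : Fin (n + 1) → K) (σ : K),
    Indep x y ∧ σ ≠ 0 ∧ ∀ a b : Fin (n + 1),
    ((bigM D x (Sum.elim (fun c : T => τ c.1.1 c.1.2.castSucc)
        (fun t : Fin 2 => τ (if t = 0 then a else b) (Fin.last s)))
      (Sum.elim (fun c => c.1.1) (fun t : Fin 2 => if t = 0 then a else b))
      (Sum.elim (fun c => c.1.2.castSucc) (fun _ => Fin.last s))).submatrix e0 id).det =
      σ * (x a * y b - x b * y a)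

/-- D: the height inequality. `δ = e - n`. -/
def T_D : Prop := ∀ (R k K : Type) [Field R] [Field k] [IsAlgClosed k] [CharZero k] [Field K]
  [Algebra k K] [Algebra R K] [Algebra.EssFiniteType k K], Algebra.trdeg k K = 1 →
  ∀ (n e s : ℕ) (F : MvPolynomial (Fin (n + 1)) k), F.IsHomogeneous (e + 1) →
  (∀ z : Fin (n + 1) → k, z ≠ 0 → ∃ j, eval z (pderiv j F) ≠ 0) →
  ∀ (D : Derivation k K K) (D' : Derivation R K K), D ≠ 0 → (∀ z, D' z = D z) →
  Sys (e + 1) (up K F) D' →
  (∀ G : MvPolynomial (Fin (n + 1)) k, G.IsHomogeneous (e + 1) →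
    ∃ τ : Op R K n, RatOp k τ ∧ opF τ (up K F) = up K G) →
  ∀ (x : Fin (n + 1) → K) (p : Fin (n + 1)), x p = 1 → Indep x (fun i => D (x i)) →
  eval x (up K F) ≠ 0 → ∀ S : Finset (DV k K),
  (∀ v, v ∉ S → v.ord (eval x (up K F)) = -((e + 1 : ℕ) * poleOrder v x)) →
  ∀ Q : Fin s → Mon (n + 1) e → k,
  (Module.finrank K (Ut R (up K F) x (PQ x fun j => up K (frm (Q j)))) = n + 1 →
    ((e : ℤ) - n - s) * deg k x ≤ canDeg D + S.card) ∧
  (Module.finrank K (Ut R (up K F) x (PQ x fun j => up K (frm (Q j)))) = n →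
    ∀ (Q' : Mon (n + 1) e → k) (ξ : Fin (n + 1) → K) (τ : Op R K n), ∑ i, ξ i * x i = 0 →
    opF τ (up K F) = lin ξ * up K (frm Q') →
    opV τ x ∉ Ut R (up K F) x (PQ x fun j => up K (frm (Q j))) →
    ∃ (y : Fin (n + 1) → K) (a b : Fin (n + 1)), Indep x y ∧ x a * y b - x b * y a ≠ 0 ∧
      (hln k x y a b : ℤ) + ((e : ℤ) - n - (s + 1)) * deg k x ≤ canDeg D + S.card)

end Pool.Agent.H17.VG
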