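import Pool.Agent.H17.VG.TargetsD

/-!
# MP_70ba79_ag: targets of the board `vyc_modules`, part G (generic forms and their operators)
-/

set_option autoImplicit false

namespace Pool.Agent.H17.VG

open MvPolynomial SC Pool.Agent.H27.LV

/-- the monomials `X_i X_j ^ (d - 1)` -/
def Wm {n d : ℕ} (M : Mon (n + 1) d) : Prop :=
  ∃ i j : Fin (n + 1), ∀ l, M.1 l = (if l = i then 1 else 0) + (if l = j then d - 1 else 0)

/-- G1: derivations with given values on a transcendence basis (see H75.MG.DER, exists_der) -/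
def T_G1 : Prop := ∀ (R L t : Type) [Field R] [CharZero R] [Field L] [Algebra R L] (v : t → L),
  IsTranscendenceBasis R v → ∀ w : t → L, ∃ D : Derivation R L L, ∀ i, D (v i) = w i

/-- G2: derivations of `k` over the rational numbers with given values on algebraically independent
elements -/
def T_G2 : Prop := ∀ (k ι : Type) [Field k] [CharZero k] (c : ι → k), AlgebraicIndependent ℚ c →
  ∀ w : ι → k, ∃ D : Derivation ℚ k k, ∀ i, D (c i) = w i

/-- G3: the generic hypersurface is smooth: if `grad F (z) = 0` then `F (z) = 0` by Euler, and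
applying the derivation `∂_M` (`M = X_i ^ (e + 1)`, `z i ≠ 0`) one gets `z ^ M = 0` -/
def T_SO : Prop := ∀ (k : Type) [Field k] [CharZero k] (n e : ℕ) (c : Mon (n + 1) (e + 1) → k),
  AlgebraicIndependent ℚ c → ∀ z : Fin (n + 1) → k, z ≠ 0 → ∃ j, eval z (pderiv j (frm c)) ≠ 0

/-- G4: the matrix of the coefficients of `X_i' X_j' ^ e` in `X_j ∂_i F` is invertible (its
determinant is a polynomial in the coefficients of `F`, not zero for the Fermat form) -/
def T_FE : Prop := ∀ (k : Type) [Field k] [CharZero k] (n e : ℕ) (c : Mon (n + 1) (e + 1) → k),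
  2 ≤ e → AlgebraicIndependent ℚ c →
  (Matrix.of fun q p : Fin (n + 1) × Fin (n + 1) =>
    coeff (Finsupp.single q.1 1 + Finsupp.single q.2 e) (X p.2 * pderiv p.1 (frm c))).det ≠ 0

/-- G5: unique decomposition of a form of degree `e + 1` over an extension `K` of `k` -/
def T_BS : Prop := ∀ (k K : Type) [Field k] [CharZero k] [Field K] [Algebra k K] (n e : ℕ)
  (c : Mon (n + 1) (e + 1) → k), 2 ≤ e → AlgebraicIndependent ℚ c →
  (∀ G : MvPolynomial (Fin (n + 1)) K, G.IsHomogeneous (e + 1) →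
    ∃ (g : Mon (n + 1) (e + 1) → K) (A : Matrix (Fin (n + 1)) (Fin (n + 1)) K),
      (∀ M, Wm M → g M = 0) ∧
      G = frm g + ∑ i, (∑ j, C (A i j) * X j) * pderiv i (up K (frm c))) ∧
  ∀ (g : Mon (n + 1) (e + 1) → K) (A : Matrix (Fin (n + 1)) (Fin (n + 1)) K),
    (∀ M, Wm M → g M = 0) →
    frm g + ∑ i, (∑ j, C (A i j) * X j) * pderiv i (up K (frm c)) = 0 → g = 0 ∧ A = 0

/-- G6: the small field `R` -/
def T_FD : Prop := ∀ (k : Type) [Field k] [CharZero k] (n d : ℕ) (c : Mon (n + 1) d → k),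
  AlgebraicIndependent ℚ c → ∃ R : IntermediateField ℚ k, (∀ M, Wm M → c M ∈ R) ∧
    AlgebraicIndependent R (fun M : {M : Mon (n + 1) d // ¬ Wm M} => c M) ∧
    Algebra.IsAlgebraic (IntermediateField.adjoin R
      (Set.range fun M : {M : Mon (n + 1) d // ¬ Wm M} => c M)) k

/-- G7: the derivations `∂_M` on `K` -/
def T_DX : Prop := ∀ (k : Type) [Field k] [IsAlgClosed k] [CharZero k] (n d : ℕ)
  (c : Mon (n + 1) d → k) (R : IntermediateField ℚ k),
  AlgebraicIndependent R (fun M : {M : Mon (n + 1) d // ¬ Wm M} => c M) →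
  Algebra.IsAlgebraic (IntermediateField.adjoin R
      (Set.range fun M : {M : Mon (n + 1) d // ¬ Wm M} => c M)) k →
  ∀ (K : Type) [Field K] [Algebra k K] [Algebra.EssFiniteType k K], Algebra.trdeg k K = 1 →
  ∀ g : {M : Mon (n + 1) d // ¬ Wm M} → k, ∃ θ : Derivation R K K, PresK k θ ∧
    ∀ M, θ (algebraMap k K (c M.1)) = algebraMap k K (g M)

/-- G8: derivations which vanish on the coefficients are multiples of `D` -/
def T_KD : Prop := ∀ (k : Type) [Field k] [IsAlgClosed k] [CharZero k] (n d : ℕ)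
  (c : Mon (n + 1) d → k) (R : IntermediateField ℚ k),
  Algebra.IsAlgebraic (IntermediateField.adjoin R
      (Set.range fun M : {M : Mon (n + 1) d // ¬ Wm M} => c M)) k →
  ∀ (K : Type) [Field K] [Algebra k K] [Algebra.EssFiniteType k K], Algebra.trdeg k K = 1 →
  ∀ (D : Derivation k K K) (D' θ : Derivation R K K), D ≠ 0 → (∀ z, D' z = D z) →
  (∀ M : {M : Mon (n + 1) d // ¬ Wm M}, θ (algebraMap k K (c M.1)) = 0) → ∃ a : K, θ = a • D'

/-- G: the system of a generic form -/
def T_G : Prop := ∀ (k : Type) [Field k] [IsAlgClosed k] [CharZero k] (n e : ℕ)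
  (c : Mon (n + 1) (e + 1) → k), 2 ≤ e → AlgebraicIndependent ℚ c →
  ∃ R : IntermediateField ℚ k, ∀ (K : Type) [Field K] [Algebra k K] [Algebra.EssFiniteType k K],
  Algebra.trdeg k K = 1 → ∀ D : Derivation k K K, D ≠ 0 →
  ∃ D' : Derivation R K K, (∀ z, D' z = D z) ∧ Sys (e + 1) (up K (frm c)) D' ∧
    ∀ G : MvPolynomial (Fin (n + 1)) k, G.IsHomogeneous (e + 1) →
      ∃ τ : Op R K n, RatOp k τ ∧ opF τ (up K (frm c)) = up K G

end Pool.Agent.H17.VG
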