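import Pool.Agent.H17.VG.Defs
import Pool.Agent.H30.VGH.Defs

/-!
# MP_70ba79_ag: comparison of `TwoRoots` (board `vyc_modules`) and `TwoPt` (board `vgh_modules`)
-/

set_option autoImplicit false

namespace Pool.Agent.H17.VG.TT

open MvPolynomial Pool.Agent.H17.VG

section

variable {K : Type} [Field K] {n : ℕ}

/-- evaluation of `res` -/
lemma eval_res (x y : Fin (n + 1) → K) (G : MvPolynomial (Fin (n + 1)) K) (t : K) :
    (res x y G).eval t = eval (fun i => x i + t * y i) G := by
  unfold res
  induction G using MvPolynomial.induction_on with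
  | C a => simp
  | add p q hp hq => simp only [map_add, Polynomial.eval_add, hp, hq]
  | mul_X p i hp =>
    rw [map_mul, Polynomial.eval_mul, hp, map_mul, aeval_X, eval_X, Polynomial.eval_add,
      Polynomial.eval_C, Polynomial.eval_mul, Polynomial.eval_C, Polynomial.eval_X, mul_comm t]

/-- evaluation and base change -/
lemma up_eval {L : Type} [Field L] (f : K →+* L) (x : Fin (n + 1) → K)
    (G : MvPolynomial (Fin (n + 1)) K) :
    f (eval x G) = eval (fun i => f (x i)) (MvPolynomial.map f G) := by
  induction G using MvPolynomial.induction_on with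
  | C a => simp
  | add p q hp hq => simp only [map_add, hp, hq]
  | mul_X p i hp => simp only [map_mul, hp, eval_X, MvPolynomial.map_X]

/-- homogeneity -/
lemma eval_smul_hom {d : ℕ} {G : MvPolynomial (Fin (n + 1)) K} (hG : G.IsHomogeneous d) (c : K)
    (x : Fin (n + 1) → K) : eval (fun i => c * x i) G = c ^ d * eval x G := by
  rw [eval_eq', eval_eq', Finset.mul_sum]
  refine Finset.sum_congr rfl fun m hm => ?_
  have h1 : m.degree = d := by
    by_contra h
    exact (mem_support_iff.1 hm) (hG.coeff_eq_zero h)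
  have h2 : ∏ i, (c * x i) ^ m i = c ^ d * ∏ i, x i ^ m i := by
    simp_rw [mul_pow]
    rw [Finset.prod_mul_distrib, Finset.prod_pow_eq_pow_sum, ← h1, Finsupp.degree_eq_sum]
  rw [h2]
  ring

end

section

variable {L : Type} [Field L] [Infinite L] {n : ℕ}

/-- from the affine form to the binary form -/
lemma bin_of_aff {d a b : ℕ} {F : MvPolynomial (Fin (n + 1)) L} (hF : F.IsHomogeneous d)
    (x y : Fin (n + 1) → L) (c α β : L) (hab : a + b = d)
    (h : ∀ T : L, eval (fun i => x i + T * y i) F = c * (1 + α * T) ^ a * (1 + β * T) ^ b)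
    (s t : L) : eval (fun i => s * x i + t * y i) F =
      c * (s + α * t) ^ a * (s + β * t) ^ b := by
  -- polynomials in `ε`
  obtain ⟨P, hP⟩ : ∃ P : Polynomial L, ∀ ε, P.eval ε = eval (fun i => ε * x i + t * y i) F := by
    refine ⟨aeval (fun i => Polynomial.X * Polynomial.C (x i) + Polynomial.C (t * y i)) F, ?_⟩
    intro ε
    clear hF h
    induction F using MvPolynomial.induction_on with
    | C a => simp
    | add p q hp hq => simp only [map_add, Polynomial.eval_add, hp, hq]
    | mul_X p i hp =>
      rw [map_mul, Polynomial.eval_mul, hp, map_mul, aeval_X, eval_X, Polynomial.eval_add,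
        Polynomial.eval_C, Polynomial.eval_mul, Polynomial.eval_C, Polynomial.eval_X]
  obtain ⟨Q, hQ⟩ : ∃ Q : Polynomial L, ∀ ε, Q.eval ε = c * (ε + α * t) ^ a * (ε + β * t) ^ b :=
    ⟨Polynomial.C c * (Polynomial.X + Polynomial.C (α * t)) ^ a *
      (Polynomial.X + Polynomial.C (β * t)) ^ b, fun ε => by simp⟩
  have hPQ : P = Q := by
    refine Polynomial.eq_of_infinite_eval_eq P Q ?_
    refine Set.Infinite.mono (s := {0}ᶜ) ?_ (Set.finite_singleton (0 : L)).infinite_compl
    intro ε hε
    have hε0 : ε ≠ 0 := hε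
    show P.eval ε = Q.eval ε
    rw [hP, hQ]
    have h1 : (fun i => ε * x i + t * y i) = fun i => ε * (x i + t / ε * y i) := by
      funext i
      field_simp
    rw [h1, eval_smul_hom hF, h (t / ε), ← hab, pow_add]
    have h2 : ε + α * t = ε * (1 + α * (t / ε)) := by field_simp
    have h3 : ε + β * t = ε * (1 + β * (t / ε)) := by field_simp
    rw [h2, h3, mul_pow, mul_pow]
    ring
  rw [← hP, ← hQ, hPQ]

end

section

variable {K : Type} [Field K] {n : ℕ}

lemma eval_map_res (x y : Fin (n + 1) → K) (G : MvPolynomial (Fin (n + 1)) K)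
    (T : AlgebraicClosure K) :
    ((res x y G).map (algebraMap K (AlgebraicClosure K))).eval T =
      eval (fun i => algebraMap K (AlgebraicClosure K) (x i) +
        T * algebraMap K (AlgebraicClosure K) (y i))
        (MvPolynomial.map (algebraMap K (AlgebraicClosure K)) G) := by
  unfold res
  induction G using MvPolynomial.induction_on with
  | C a => simp
  | add p q hp hq => simp only [map_add, Polynomial.map_add, Polynomial.eval_add, hp, hq]
  | mul_X p i hp =>
    rw [map_mul, Polynomial.map_mul, Polynomial.eval_mul, hp, map_mul, aeval_X,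
      MvPolynomial.map_X, map_mul, eval_X]
    simp only [Polynomial.map_add, Polynomial.map_C, Polynomial.map_mul, Polynomial.map_X,
      Polynomial.eval_add, Polynomial.eval_C, Polynomial.eval_mul, Polynomial.eval_X]
    rw [mul_comm T]

lemma twoPt_of_twoRoots {d : ℕ} (hd : 2 ≤ d) {F : MvPolynomial (Fin (n + 1)) K}
    (hF : F.IsHomogeneous d) (x y : Fin (n + 1) → K) (h : TwoRoots d F x y) :
    H30.VGH.TwoPt d (MvPolynomial.map (algebraMap K (AlgebraicClosure K)) F)
      (fun i => algebraMap K (AlgebraicClosure K) (x i))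
      (fun i => algebraMap K (AlgebraicClosure K) (y i)) := by
  obtain ⟨α, β, a, b, hab, h1⟩ := h
  have hinf : Infinite (AlgebraicClosure K) := inferInstance
  have h2 := bin_of_aff (hF.map (algebraMap K (AlgebraicClosure K)))
    (fun i => algebraMap K (AlgebraicClosure K) (x i))
    (fun i => algebraMap K (AlgebraicClosure K) (y i))
    (algebraMap K (AlgebraicClosure K) (eval x F)) α β hab (by
      intro T
      rw [← eval_map_res, h1]
      simp)
  obtain ⟨μ, hμ⟩ := IsAlgClosed.exists_pow_nat_eq
    (algebraMap K (AlgebraicClosure K) (eval x F)) (n := d) (by omega)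
  -- reduce to positive exponents
  obtain ⟨a', b', α', β', hab', h3⟩ : ∃ (a' b' : ℕ) (α' β' : AlgebraicClosure K),
      a' + b' + 2 = d ∧ ∀ s t : AlgebraicClosure K,
        (s + α * t) ^ a * (s + β * t) ^ b = (s + α' * t) ^ (a' + 1) * (s + β' * t) ^ (b' + 1) := by
    rcases Nat.eq_zero_or_pos a with ha | ha
    · refine ⟨0, b - 2, β, β, by omega, fun s t => ?_⟩
      rw [ha, pow_zero, one_mul, ← pow_add]
      congr 1
      omega
    rcases Nat.eq_zero_or_pos b with hb | hb
    · refine ⟨0, a - 2, α, α, by omega, fun s t => ?_⟩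
      rw [hb, pow_zero, mul_one, ← pow_add]
      congr 1
      omega
    · refine ⟨a - 1, b - 1, α, β, by omega, fun s t => ?_⟩
      rw [Nat.sub_add_cancel ha, Nat.sub_add_cancel hb]
  refine ⟨a', b', ![μ, μ * α'], ![μ, μ * β'], hab', fun s t => ?_⟩
  unfold H30.VGH.lpt
  rw [h2 s t, mul_assoc, h3 s t, ← hμ, ← hab']
  simp only [Matrix.cons_val_zero, Matrix.cons_val_one]
  rw [mul_assoc μ, ← mul_add μ, mul_pow, mul_assoc μ, ← mul_add μ, mul_pow]
  ring

lemma twoRoots_of_twoPt {d : ℕ} {F : MvPolynomial (Fin (n + 1)) K}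
    (x y : Fin (n + 1) → K) (hx : eval x F ≠ 0)
    (h : H30.VGH.TwoPt d (MvPolynomial.map (algebraMap K (AlgebraicClosure K)) F)
      (fun i => algebraMap K (AlgebraicClosure K) (x i))
      (fun i => algebraMap K (AlgebraicClosure K) (y i))) : TwoRoots d F x y := by
  obtain ⟨a, b, l, m, hab, h1⟩ := h
  have hinf : Infinite (AlgebraicClosure K) := inferInstance
  have h2 : ∀ T : AlgebraicClosure K,
      ((res x y F).map (algebraMap K (AlgebraicClosure K))).eval T =
        (l 0 + l 1 * T) ^ (a + 1) * (m 0 + m 1 * T) ^ (b + 1) := by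
    intro T
    rw [eval_map_res]
    have := h1 1 T
    unfold H30.VGH.lpt at this
    simpa using this
  have h3 : algebraMap K (AlgebraicClosure K) (eval x F) = l 0 ^ (a + 1) * m 0 ^ (b + 1) := by
    have := h2 0
    rw [eval_map_res] at this
    simp only [zero_mul, add_zero, mul_zero] at this
    rw [← this]
    exact up_eval (algebraMap K (AlgebraicClosure K)) x F
  have hne : algebraMap K (AlgebraicClosure K) (eval x F) ≠ 0 := by
    simpa using hx
  have hl : l 0 ≠ 0 := by
    intro h0
    apply hne
    rw [h3, h0, zero_pow (by omega), zero_mul]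
  have hm : m 0 ≠ 0 := by
    intro h0
    apply hne
    rw [h3, h0, zero_pow (by omega), mul_zero]
  refine ⟨l 1 / l 0, m 1 / m 0, a + 1, b + 1, by omega, ?_⟩
  refine Polynomial.funext fun T => ?_
  rw [h2 T]
  simp only [Polynomial.eval_mul, Polynomial.eval_C, Polynomial.eval_pow, Polynomial.eval_add,
    Polynomial.eval_one, Polynomial.eval_X]
  have e1 : l 0 + l 1 * T = l 0 * (1 + l 1 / l 0 * T) := by field_simp
  have e2 : m 0 + m 1 * T = m 0 * (1 + m 1 / m 0 * T) := by field_simp
  rw [e1, e2, mul_pow, mul_pow, h3]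
  ring

end

end Pool.Agent.H17.VG.TT
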