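import Pool.Agent.H17.VG.TargetsF
import Pool.Agent.H27.LV.Curve

/-!
# MP_70ba79_ag: the alternative (rows AL, MN of the board `vyc_modules`)
-/

set_option autoImplicit false

namespace Pool.Agent.H17.VG

open MvPolynomial SC Pool.Agent.H27.LV

/-- the vector and its derivative -/
lemma indep_D {k K : Type} [Field k] [Field K] [Algebra k K] {n : ℕ} (D : Derivation k K K)
    (x : Fin (n + 1) → K) (p : Fin (n + 1)) (hp : x p = 1) (hx : ∃ j, D (x j) ≠ 0) :
    Indep x fun i => D (x i) := by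
  obtain ⟨j, hj⟩ := hx
  unfold Indep
  rw [LinearIndependent.pair_iff]
  intro s t hst
  have h1 := congrFun hst p
  simp only [Pi.add_apply, Pi.smul_apply, hp, smul_eq_mul, mul_one, D.map_one_eq_zero, mul_zero,
    add_zero, Pi.zero_apply] at h1
  have h2 := congrFun hst j
  simp only [Pi.add_apply, Pi.smul_apply, h1, smul_eq_mul, zero_mul, zero_add,
    Pi.zero_apply] at h2
  exact ⟨h1, (mul_eq_zero.1 h2).resolve_right hj⟩

theorem al (hST : T_ST) (hSM : T_SM) (hD : T_D) (hG : T_G) (hSO : T_SO) : T_AL := by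
  intro k _ _ _ n e c hn hne he hc K _ _ _ htr D hD0 x p hp hx hF hline S hS
  obtain ⟨R, hR⟩ := hG k n e c he hc
  obtain ⟨D', hD', hsys, hrat⟩ := hR K htr D hD0
  have hcK : CharZero K := charZero_of_injective_algebraMap (algebraMap k K).injective
  have hxD : Indep x fun i => D (x i) := by
    refine indep_D D x p hp ?_
    obtain ⟨j, hj⟩ := hx
    exact ⟨j, fun h0 => hj (ker k K htr D hD0 _ h0)⟩
  have hxD' : Indep x fun i => D' (x i) := by
    have : (fun i => D' (x i)) = fun i => D (x i) := funext fun i => hD' _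
    rw [this]
    exact hxD
  obtain ⟨Q, hQ⟩ := hST R k K n e (up K (frm c)) D' x hn hne hsys hxD' hF hline
  have hle : Module.finrank K (Ut R (up K (frm c)) x (PQ x fun j => up K (frm (Q j)))) ≤ n + 1 := by
    have := Submodule.finrank_le (Ut R (up K (frm c)) x (PQ x fun j => up K (frm (Q j))))
    simpa using this
  have hsm := hSO k n e c hc
  have hd := hD R k K htr n e (e - n - 1) (frm c) (frm_homog c) hsm D D' hD0 hD' hsys hrat x p hp
    hxD hF S hS Q
  rcases Nat.lt_or_ge n (Module.finrank K (Ut R (up K (frm c)) x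
    (PQ x fun j => up K (frm (Q j))))) with h | h
  · left
    have h1 := hd.1 (by omega)
    have h2 : ((e : ℤ) - n - (e - n - 1 : ℕ)) = 1 := by omega
    rw [h2, one_mul] at h1
    exact h1
  · right
    have h0 : Module.finrank K (Ut R (up K (frm c)) x (PQ x fun j => up K (frm (Q j)))) = n := by
      omega
    obtain ⟨Q', ξ, τ, h1, h2, h3⟩ := hSM R k K n e (e - n - 1) (up K (frm c)) D' x hsys hF Q h0
    obtain ⟨y, a, b, h4, h5, h6⟩ := hd.2 h0 Q' ξ τ h1 h2 h3
    refine ⟨y, a, b, h4, h5, ?_⟩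
    have h7 : ((e : ℤ) - n - ((e - n - 1 : ℕ) + 1)) = 0 := by omega
    rw [h7, zero_mul, add_zero] at h6
    exact h6

theorem mn (hAL : T_AL) (hE : T_E) : T_MN := by
  intro n e hn hne
  obtain ⟨C, hC⟩ := hE n (e + 1)
  refine ⟨2 * C + 1, ?_⟩
  intro k _ _ _ c hc K _ _ _ htr D hD x p hp hx hF hline S hS
  have hC0 : (0 : ℤ) ≤ C := Int.natCast_nonneg C
  rcases hAL k n e c hn hne (by omega) hc K htr D hD x p hp hx hF hline S hS with h | h
  · have h0 : (0 : ℤ) ≤ deg k x := Int.natCast_nonneg _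
    have h1 : (0 : ℤ) ≤ canDeg D + S.card := h0.trans h
    push_cast
    nlinarith
  · obtain ⟨y, a, b, h1, h2, h3⟩ := h
    have h4 : (0 : ℤ) ≤ hln k x y a b := Int.natCast_nonneg _
    have h5 : (0 : ℤ) ≤ canDeg D + S.card := h4.trans h3
    have h6 := hC k K htr D hD (frm c) (frm_homog c) x y p a b hp h1 h2 hF (hline y h1) S hS h5
    push_cast
    nlinarith

end Pool.Agent.H17.VG
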