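import Pool.Agent.H17.VG.TargetsB
import Pool.Agent.H17.VG.TargetsD
import Pool.Agent.H27.LV.Gen

/-!
# MP_70ba79_ag: the height inequality (row DD of the board `vyc_modules`)
-/

set_option autoImplicit false

namespace Pool.Agent.H17.VG

open MvPolynomial SC Pool.Agent.H27.LV

section Lin

variable {R K : Type} [Field R] [Field K] [Algebra R K] {n : ℕ}

/-- linearity of `opF` and `opV` for finite sums -/
lemma opF_sum (hOP : T_OP) {ι : Type} (s : Finset ι) (a : ι → K) (τ : ι → Op R K n)
    (G : MvPolynomial (Fin (n + 1)) K) :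
    opF (∑ i ∈ s, a i • τ i) G = ∑ i ∈ s, C (a i) * opF (τ i) G := by
  classical
  induction s using Finset.induction_on with
  | empty =>
    have h := (hOP R K n 0 (0 : Op R K n) 0 G G 0 0 0).2.2.1
    simpa using h
  | insert i s hi ih =>
    rw [Finset.sum_insert hi, Finset.sum_insert hi, ← ih]
    have h := (hOP R K n 0 (τ i) (∑ i ∈ s, a i • τ i) G G (a i) 1 0).2.2.1
    rw [one_smul, C_1, one_mul] at h
    exact h

lemma opV_sum (hOP : T_OP) {ι : Type} (s : Finset ι) (a : ι → K) (τ : ι → Op R K n)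
    (z : Fin (n + 1) → K) :
    opV (∑ i ∈ s, a i • τ i) z = ∑ i ∈ s, a i • opV (τ i) z := by
  classical
  induction s using Finset.induction_on with
  | empty =>
    have h := (hOP R K n 0 (0 : Op R K n) 0 0 0 0 0 z).2.2.2.1
    simpa using h
  | insert i s hi ih =>
    rw [Finset.sum_insert hi, Finset.sum_insert hi, ← ih]
    have h := (hOP R K n 0 (τ i) (∑ i ∈ s, a i • τ i) 0 0 (a i) 1 z).2.2.2.1
    rw [one_smul, one_smul] at h
    exact h

end Lin

lemma exists_minor {K : Type} [Field K] {n : ℕ} (x y : Fin (n + 1) → K) (p : Fin (n + 1))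
    (hp : x p = 1) (h : Indep x y) : ∃ a b, x a * y b - x b * y a ≠ 0 := by
  by_contra hcon
  push Not at hcon
  unfold Indep at h
  rw [LinearIndependent.pair_iff] at h
  have h1 := h (y p) (-1) (by
    funext b
    have := hcon p b
    rw [hp, one_mul] at this
    simp only [Pi.add_apply, Pi.smul_apply, smul_eq_mul, Pi.zero_apply]
    linear_combination -this)
  exact one_ne_zero (neg_eq_zero.1 h1.2)

theorem dd (hDA : T_DA) (hDB : T_DB) (hSU : T_SU2) (hNA : T_NA) (hNB : T_NB) (hWD : T_WD)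
    (hOP : T_OP) : T_D := by
  intro R k K _ _ _ _ _ _ _ _ htr n e s F hF hsm D D' hD0 hD' hsys hrat x p hp hxD hu S hS Q
  have hcK : CharZero K := charZero_of_injective_algebraMap (algebraMap k K).injective
  -- rational operators
  have hop : ∀ (i : Fin (n + 1)) (q : Mon (n + 1) e → k), ∃ τ : Op R K n, RatOp k τ ∧
      opF τ (up K F) = X i * up K (frm q) := by
    intro i q
    obtain ⟨τ, h1, h2⟩ := hrat (X i * frm q) (by
      have := (isHomogeneous_X k i).mul (frm_homog q)
      rw [Nat.add_comm e 1]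
      exact this)
    refine ⟨τ, h1, ?_⟩
    rw [h2]
    unfold up
    rw [map_mul, map_X]
  refine ⟨?_, ?_⟩
  · intro hfin
    choose τ hτ1 hτ2 using fun (i : Fin (n + 1)) (j : Fin s) => hop i (Q j)
    obtain ⟨T, e0, hdet⟩ := hNA R k K n e s (up K F) D D' x p hp hsys hD' hxD
      (fun j => up K (frm (Q j))) τ hτ2 hfin
    have h1 := hSU k K htr n (n + 1 + s) (e + 1) D hD0 x (eval x (up K F)) hu S hS Unit
      (fun _ => ((bigM D x (fun c : T => τ c.1.1 c.1.2) (fun c => c.1.1)
        (fun c => c.1.2)).submatrix e0 id).det) () hdet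
      (fun v _ => by
        have h2 := hDA R k K htr n s D hD0 x p hp T (fun c : T => τ c.1.1 c.1.2)
          (fun c => c.1.1) (fun c => c.1.2) e0 (fun c => hτ1 _ _) v
        push_cast
        exact h2)
      (fun v _ => by
        have h2 := hDB R k K htr n e s F hF hsm D hD0 x p hp hu (fun j => frm (Q j)) T
          (fun c : T => τ c.1.1 c.1.2) (fun c => c.1.1) (fun c => c.1.2) e0 (fun c => hτ1 _ _)
          (fun c => hτ2 _ _) v
        push_cast
        exact h2)
    have h3 : (0 : ℤ) ≤ (deg k (fun _ : Unit => ((bigM D x (fun c : T => τ c.1.1 c.1.2)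
      (fun c => c.1.1) (fun c => c.1.2)).submatrix e0 id).det /
      ((bigM D x (fun c : T => τ c.1.1 c.1.2) (fun c => c.1.1)
        (fun c => c.1.2)).submatrix e0 id).det) : ℤ) := Int.natCast_nonneg _
    have h4 : (((e + 1 : ℕ) : ℤ) - ((n + 1 + s : ℕ) : ℤ)) = (e : ℤ) - n - s := by
      push_cast; ring
    rw [h4] at h1
    linarith
  · intro hfin Q' ξ τ0 hξ hτ0 hnot
    obtain ⟨Qh, hQh⟩ : ∃ Qh : Fin (s + 1) → Mon (n + 1) e → k, Qh = Fin.snoc (α := fun _ =>
      Mon (n + 1) e → k) Q Q' := ⟨_, rfl⟩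
    have hQ1 : ∀ j : Fin s, Qh j.castSucc = Q j := fun j => by rw [hQh, Fin.snoc_castSucc]
    have hQ2 : Qh (Fin.last s) = Q' := by rw [hQh, Fin.snoc_last]
    choose τ hτ1 hτ2 using fun (i : Fin (n + 1)) (j : Fin (s + 1)) => hop i (Qh j)
    have hUt : Ut R (up K F) x (PQ x fun j : Fin s => up K (frm (Qh j.castSucc))) =
        Ut R (up K F) x (PQ x fun j => up K (frm (Q j))) := by
      simp only [hQ1]
    have hmem : ∀ i, opV (τ i (Fin.last s)) x = opV (τ i (Fin.last s)) x := fun _ => rfl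
    have hDmem : (fun i => D' (x i)) ∈ Ut R (up K F) x (PQ x fun j => up K (frm (Q j))) := by
      refine Submodule.subset_span (Or.inl ⟨((D', 0) : Op R K n), ?_, ?_⟩)
      · have h0 : opF ((D', 0) : Op R K n) (up K F) = 0 := by
          unfold opF
          simp [hsys.base]
        rw [h0]
        exact zero_mem _
      · funext i
        simp [opV]
    have hex : ∃ ξ : Fin (n + 1) → K, ∑ i, ξ i * x i = 0 ∧
        ∑ i, ξ i • opV (τ i (Fin.last s)) x ∉
          Ut R (up K F) x (PQ x fun j : Fin s => up K (frm (Qh j.castSucc))) := by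
      refine ⟨ξ, hξ, ?_⟩
      rw [hUt]
      intro hin
      apply hnot
      have h1 : opF τ0 (up K F) = opF (∑ i, ξ i • τ i (Fin.last s)) (up K F) := by
        rw [opF_sum hOP, hτ0]
        unfold lin
        rw [Finset.sum_mul]
        refine Finset.sum_congr rfl fun i _ => ?_
        rw [hτ2, hQ2, mul_assoc]
      obtain ⟨c, hc⟩ := hWD R K n (e + 1) (up K F) D' hsys τ0 _ h1
      rw [hc x, opV_sum hOP]
      exact add_mem hin (Submodule.smul_mem _ _ hDmem)
    obtain ⟨T, e0, y, σ, hxy, hσ, hdet⟩ := hNB R k K n e s (up K F) D D' x p hp hsys hD' hxD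
      (fun j => up K (frm (Qh j))) τ hτ2 (by rw [hUt]; exact hfin) hex
    obtain ⟨a, b, hab⟩ := exists_minor x y p hp hxy
    refine ⟨y, a, b, hxy, hab, ?_⟩
    obtain ⟨P, hP⟩ : ∃ P : Fin (n + 1) × Fin (n + 1) → K, P = fun ab =>
      ((bigM D x (Sum.elim (fun c : T => τ c.1.1 c.1.2.castSucc)
        (fun t : Fin 2 => τ (if t = 0 then ab.1 else ab.2) (Fin.last s)))
      (Sum.elim (fun c => c.1.1) (fun t : Fin 2 => if t = 0 then ab.1 else ab.2))
      (Sum.elim (fun c => c.1.2.castSucc) (fun _ => Fin.last s))).submatrix e0 id).det := ⟨_, rfl⟩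
    have hPv : ∀ ab, P ab = σ * (x ab.1 * y ab.2 - x ab.2 * y ab.1) := by
      intro ab
      rw [hP]
      exact hdet ab.1 ab.2
    have h1 := hSU k K htr n (n + 1 + (s + 1)) (e + 1) D hD0 x (eval x (up K F)) hu S hS
      (Fin (n + 1) × Fin (n + 1)) P (a, b) (by rw [hPv]; exact mul_ne_zero hσ hab)
      (fun v ab => by
        have h2 := hDA R k K htr n (s + 1) D hD0 x p hp (T ⊕ Fin 2)
          (Sum.elim (fun c : T => τ c.1.1 c.1.2.castSucc)
            (fun t : Fin 2 => τ (if t = 0 then ab.1 else ab.2) (Fin.last s)))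
          (Sum.elim (fun c => c.1.1) (fun t : Fin 2 => if t = 0 then ab.1 else ab.2))
          (Sum.elim (fun c => c.1.2.castSucc) (fun _ => Fin.last s)) e0
          (by rintro (c | t) <;> exact hτ1 _ _) v
        rw [hP]
        push_cast at h2 ⊢
        exact h2)
      (fun v ab => by
        have h2 := hDB R k K htr n e (s + 1) F hF hsm D hD0 x p hp hu (fun j => frm (Qh j))
          (T ⊕ Fin 2)
          (Sum.elim (fun c : T => τ c.1.1 c.1.2.castSucc)
            (fun t : Fin 2 => τ (if t = 0 then ab.1 else ab.2) (Fin.last s)))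
          (Sum.elim (fun c => c.1.1) (fun t : Fin 2 => if t = 0 then ab.1 else ab.2))
          (Sum.elim (fun c => c.1.2.castSucc) (fun _ => Fin.last s)) e0
          (by rintro (c | t) <;> exact hτ1 _ _) (by rintro (c | t) <;> exact hτ2 _ _) v
        rw [hP]
        push_cast at h2 ⊢
        exact h2)
    have h3 : (fun c => P c / P (a, b)) = fun ij : Fin (n + 1) × Fin (n + 1) =>
        (x ij.1 * y ij.2 - x ij.2 * y ij.1) / (x a * y b - x b * y a) := by
      funext c
      rw [hPv, hPv, mul_div_mul_left _ _ hσ]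
    rw [h3] at h1
    have h4 : (((e + 1 : ℕ) : ℤ) - ((n + 1 + (s + 1) : ℕ) : ℤ)) = (e : ℤ) - n - (s + 1) := by
      push_cast; ring
    rw [h4] at h1
    exact h1

end Pool.Agent.H17.VG
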