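import Pool.Agent.H17.VG.TargetsB
import Pool.Agent.H17.VG.TargetsG
import Pool.Agent.H17.VG.DD

/-!
# MP_70ba79_ag: the system of operators of a generic form (row GG of the board `vyc_modules`)
-/

set_option autoImplicit false

namespace Pool.Agent.H17.VG

open MvPolynomial SC Pool.Agent.H27.LV

section

variable {R K : Type} [Field R] [Field K] [Algebra R K] {n : ℕ}

lemma frm_smul_add {d : ℕ} (a b : K) (g g' : Mon (n + 1) d → K) :
    frm (fun M => a * g M + b * g' M) = C a * frm g + C b * frm g' := by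
  unfold frm
  rw [Finset.mul_sum, Finset.mul_sum, ← Finset.sum_add_distrib]
  refine Finset.sum_congr rfl fun M _ => ?_
  rw [map_add, map_mul, map_mul]
  ring

/-- `cD` of a form with coefficients `g` -/
lemma cD_frm (hCD : T_CD) {d : ℕ} (θ : Derivation R K K) (g : Mon (n + 1) d → K) :
    cD θ (frm g) = frm fun M => θ (g M) := by
  ext m
  rw [(hCD R K n θ θ (frm g) 0 0 0 m 0 0).1]
  unfold frm
  rw [coeff_sum, coeff_sum, map_sum]
  refine Finset.sum_congr rfl fun M _ => ?_
  rw [coeff_C_mul, coeff_C_mul]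
  unfold mono
  rw [coeff_monomial]
  split_ifs
  · rw [mul_one, mul_one]
  · rw [mul_zero, mul_zero, map_zero]

end

section

variable {k K : Type} [Field k] [Field K] [Algebra k K] {n : ℕ}

lemma up_frm {d : ℕ} (c : Mon (n + 1) d → k) :
    up K (frm c) = frm fun M => algebraMap k K (c M) := by
  unfold up frm
  rw [map_sum]
  refine Finset.sum_congr rfl fun M _ => ?_
  rw [map_mul, map_C]
  congr 1
  unfold mono
  rw [map_monomial, map_one]

end

theorem gg (hFD : T_FD) (hDX : T_DX) (hKD : T_KD) (hBS : T_BS) (hCD : T_CD) (hOP : T_OP) :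
    T_G := by
  intro k _ _ _ n e c he hc
  obtain ⟨R, hR1, hR2, hR3⟩ := hFD k n (e + 1) c hc
  refine ⟨R, ?_⟩
  intro K _ _ _ htr D hD
  have hcK : CharZero K := charZero_of_injective_algebraMap (algebraMap k K).injective
  -- the derivation over `R`
  obtain ⟨D', hD'⟩ : ∃ D' : Derivation R K K, ∀ z, D' z = D z := by
    refine ⟨Derivation.mk' { toFun := D, map_add' := map_add D, map_smul' := ?_ }
      (fun a b => D.leibniz a b), fun z => rfl⟩
    intro r z
    have h1 : r • z = (r : k) • z := rfl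
    rw [h1, D.map_smul]
    rfl
  have hRD : ∀ (θ : Derivation R K K) (M : Mon (n + 1) (e + 1)), Wm M →
      θ (algebraMap k K (c M)) = 0 := by
    intro θ M hM
    have h1 : algebraMap k K (c M) = algebraMap R K ⟨c M, hR1 M hM⟩ := rfl
    rw [h1, θ.map_algebraMap]
  obtain ⟨hBS1, hBS2⟩ := hBS k K n e c he hc
  -- rational operators
  have hrat : ∀ G : MvPolynomial (Fin (n + 1)) k, G.IsHomogeneous (e + 1) →
      ∃ τ : Op R K n, RatOp k τ ∧ opF τ (up K (frm c)) = up K G := by
    intro G hG
    obtain ⟨g, A, hg, hGA⟩ := (hBS k k n e c he hc).1 G hG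
    obtain ⟨θ, hθ1, hθ2⟩ := hDX k n (e + 1) c R hR2 hR3 K htr (fun M => g M.1)
    refine ⟨(θ, Matrix.of fun i j => algebraMap k K (A i j)), ⟨hθ1, fun i j => ⟨A i j, rfl⟩⟩, ?_⟩
    unfold opF
    rw [up_frm, cD_frm hCD]
    have h1 : (fun M => θ (algebraMap k K (c M))) = fun M => algebraMap k K (g M) := by
      funext M
      by_cases hM : Wm M
      · rw [hRD θ M hM, hg M hM, map_zero]
      · exact hθ2 ⟨M, hM⟩
    rw [h1, ← up_frm, ← up_frm]
    rw [hGA]
    have h2 : up k (frm c) = frm c := by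
      unfold up
      exact MvPolynomial.map_id _
    rw [h2]
    unfold up
    simp only [map_add, map_sum, map_mul, map_C, map_X, Matrix.of_apply, pderiv_map]
  refine ⟨D', hD', ⟨?_, ?_, ?_, ?_⟩, hrat⟩
  · exact (frm_homog c).map _
  · rw [up_frm, cD_frm hCD]
    have h1 : (fun M => D' (algebraMap k K (c M))) = fun _ : Mon (n + 1) (e + 1) => (0 : K) := by
      funext M
      rw [hD', D.map_algebraMap]
    rw [h1]
    unfold frm
    simp
  · intro G hG
    have h1 : G = frm fun M : Mon (n + 1) (e + 1) => G.coeff (fs M.1) := dec hG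
    choose τ hτ1 hτ2 using fun M : Mon (n + 1) (e + 1) => hrat (mono k M.1) (isHomogeneous_mono M)
    refine ⟨∑ M, G.coeff (fs M.1) • τ M, ?_⟩
    rw [opF_sum hOP]
    conv_rhs => rw [h1]
    unfold frm
    refine Finset.sum_congr rfl fun M _ => ?_
    rw [show frm c = ∑ f, C (c f) * mono k f.1 from rfl] at hτ2
    rw [hτ2]
    congr 1
    unfold up mono
    rw [map_monomial, map_one]
  · intro τ hτ
    unfold opF at hτ
    rw [up_frm, cD_frm hCD] at hτ
    have h1 := hBS2 (fun M => τ.1 (algebraMap k K (c M))) τ.2 (fun M hM => hRD τ.1 M hM)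
      (by rw [← up_frm] at hτ; exact hτ)
    refine ⟨h1.2, ?_⟩
    refine hKD k n (e + 1) c R hR3 K htr D D' τ.1 hD hD' fun M => ?_
    exact congrFun h1.1 M.1

end Pool.Agent.H17.VG
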