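import Pool.Agent.H17.VG.Defs

/-!
# MP_70ba79_ag: targets of the board `vyc_modules`, part E (points on a line of small height)
-/

set_option autoImplicit false

namespace Pool.Agent.H17.VG

open MvPolynomial SC Pool.Agent.H27.LV

/-- largest order of a pole of a coefficient of `P` -/
noncomputable def pc {k K : Type} [Field k] [Field K] [Algebra k K] (v : DV k K)
    (P : Polynomial K) : ℕ := poleOrder v fun i : Fin (P.natDegree + 1) => P.coeff i

/-- height of a (monic) polynomial -/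
noncomputable def hP (k : Type) {K : Type} [Field k] [Field K] [Algebra k K]
    (P : Polynomial K) : ℕ := deg k fun i : Fin (P.natDegree + 1) => P.coeff i

/-- height of a function -/
noncomputable def h1 (k : Type) {K : Type} [Field k] [Field K] [Algebra k K] (z : K) : ℕ :=
  deg k fun _ : Fin 1 => z

/-- largest order of a pole of `z` -/
noncomputable def p1 {k K : Type} [Field k] [Field K] [Algebra k K] (v : DV k K) (z : K) : ℕ :=
  (-(v.ord z)).toNat

open Classical in
/-- number of different zeros in an algebraic closure -/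
noncomputable def nz {K : Type} [Field K] (P : Polynomial K) : ℕ :=
  ((P.map (algebraMap K (AlgebraicClosure K))).roots.toFinset).card

open Classical in
/-- ramification index of `w` over `v` (`0` if `w` does not lie over `v`) -/
noncomputable def ram {k K L : Type} [Field k] [Field K] [Field L] [Algebra k K] [Algebra k L]
    [Algebra K L] (v : DV k K) (w : DV k L) : ℕ :=
  if h : ∃ e, Over v w e then h.choose else 0

/-- E1: heights of points of projective space do not depend on the normalisation -/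
def T_HP : Prop := ∀ (k K : Type) [Field k] [IsAlgClosed k] [CharZero k] [Field K] [Algebra k K]
  [Algebra.EssFiniteType k K], Algebra.trdeg k K = 1 → ∀ (κ : Type) [Fintype κ] (P : κ → K)
  (a b : κ), P a ≠ 0 → P b ≠ 0 → deg k (fun c => P c / P a) = deg k (fun c => P c / P b)

/-- E2: coordinates on the line. `x = λ (w + τ y')`, where `w`, `y'` are small, `P` is
`F (w + T y')` divided by its leading coefficient `F (y')`. -/
def T_CO : Prop := ∀ (k K : Type) [Field k] [IsAlgClosed k] [CharZero k] [Field K] [Algebra k K]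
  [Algebra.EssFiniteType k K], Algebra.trdeg k K = 1 → ∀ (n d : ℕ)
  (F : MvPolynomial (Fin (n + 1)) k), F.IsHomogeneous d → ∀ (x y : Fin (n + 1) → K)
  (p a b : Fin (n + 1)), x p = 1 → Indep x y → x a * y b - x b * y a ≠ 0 →
  eval x (up K F) ≠ 0 → ¬ TwoRoots d (up K F) x y → ∀ S : Finset (DV k K),
  (∀ v, v ∉ S → v.ord (eval x (up K F)) = -(d * poleOrder v x)) →
  ∃ (P : Polynomial K) (τ : K) (B : Finset (DV k K)), P.Monic ∧ P.natDegree = d ∧ 3 ≤ nz P ∧
    hP k P ≤ d * hln k x y a b ∧ deg k x ≤ h1 k τ + hln k x y a b ∧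
    B.card ≤ (d + 1) * hln k x y a b ∧ P.eval τ ≠ 0 ∧
    ∀ v, v ∉ S → v ∉ B → pc v P = 0 ∧ v.ord (P.eval τ) = -(d * p1 v τ)

/-- E3: Gauss lemma for monic polynomials -/
def T_GA : Prop := ∀ (k K : Type) [Field k] [Field K] [Algebra k K] (v : DV k K)
  (A B : Polynomial K), A.Monic → B.Monic → pc v (A * B) = pc v A + pc v B

/-- E4: the radical -/
def T_RD : Prop := ∀ (k K : Type) [Field k] [IsAlgClosed k] [CharZero k] [Field K] [Algebra k K]
  [Algebra.EssFiniteType k K], Algebra.trdeg k K = 1 → ∀ (P : Polynomial K), P.Monic →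
  3 ≤ nz P → ∃ U : Polynomial K, U.Monic ∧ U.Separable ∧ 3 ≤ U.natDegree ∧
    U.natDegree ≤ P.natDegree ∧ hP k U ≤ hP k P ∧ ∀ τ : K, P.eval τ ≠ 0 → U.eval τ ≠ 0 ∧
    ∀ v : DV k K, pc v P = 0 → v.ord (P.eval τ) = -(P.natDegree * p1 v τ) →
      pc v U = 0 ∧ v.ord (U.eval τ) = -(U.natDegree * p1 v τ)

/-- E5: the splitting field as a function field with a derivation -/
def T_SP : Prop := ∀ (k K : Type) [Field k] [IsAlgClosed k] [CharZero k] [Field K] [Algebra k K]
  [Algebra.EssFiniteType k K], Algebra.trdeg k K = 1 → ∀ (D : Derivation k K K), D ≠ 0 →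
  ∀ U : Polynomial K, U.Separable →
  ∃ (L : Type) (_ : Field L) (_ : Algebra K L) (_ : Algebra k L) (_ : IsScalarTower k K L)
    (_ : FiniteDimensional K L) (_ : Algebra.EssFiniteType k L) (D' : Derivation k L L),
    Algebra.trdeg k L = 1 ∧ IsGalois K L ∧ D' ≠ 0 ∧
    (∀ z : K, D' (algebraMap K L z) = algebraMap K L (D z)) ∧
    Polynomial.Splits (U.map (algebraMap K L))

/-- E6: every place of `L` lies over exactly one place of `K` -/
def T_OV : Prop := ∀ (k K L : Type) [Field k] [Field K] [Field L] [Algebra k K] [Algebra k L]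
  [Algebra K L] [IsScalarTower k K L] [FiniteDimensional K L] (w : DV k L),
  (∃ v : DV k K, Over v w (ram v w) ∧ 0 < ram v w) ∧
  (∀ (v : DV k K) (e : ℕ), Over v w e → ram v w = e) ∧
  ∀ (v v' : DV k K) (e e' : ℕ), Over v w e → Over v' w e' → v = v'

/-- E7: the fundamental identity -/
def T_FU : Prop := ∀ (k K L : Type) [Field k] [IsAlgClosed k] [CharZero k] [Field K] [Field L]
  [Algebra k K] [Algebra k L] [Algebra K L] [IsScalarTower k K L] [FiniteDimensional K L]
  [Algebra.EssFiniteType k K], Algebra.trdeg k K = 1 → ∀ v : DV k K,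
  {w : DV k L | ram v w ≠ 0}.Finite ∧ ∑ᶠ w : DV k L, ram v w = Module.finrank K L

/-- E8: sums over the places of `L` of `ram v w * f v` -/
def T_FS : Prop := ∀ (k K L : Type) [Field k] [IsAlgClosed k] [CharZero k] [Field K] [Field L]
  [Algebra k K] [Algebra k L] [Algebra K L] [IsScalarTower k K L] [FiniteDimensional K L]
  [Algebra.EssFiniteType k K], Algebra.trdeg k K = 1 → ∀ f : DV k K → ℤ,
  {v | f v ≠ 0}.Finite → ∀ g : DV k L → ℤ, (∀ v w, ram v w ≠ 0 → g w = ram v w * f v) →
  {w | g w ≠ 0}.Finite ∧ ∑ᶠ w, g w = Module.finrank K L * ∑ᶠ v, f v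

/-- E9: a discriminant: unit where the roots stay different -/
def T_DI : Prop := ∀ r : ℕ, ∃ C : ℕ, ∀ (k K : Type) [Field k] [CharZero k] [Field K]
  [Algebra k K] (U : Polynomial K), U.Monic → U.Separable → U.natDegree = r →
  ∃ R0 : K, R0 ≠ 0 ∧ (∀ v : DV k K, -(v.ord R0) ≤ C * pc v U) ∧
    ∀ (L : Type) [Field L] [Algebra K L] [Algebra k L] [IsScalarTower k K L],
      Polynomial.Splits (U.map (algebraMap K L)) → ∀ (v : DV k K) (w : DV k L) (e : ℕ),
      Over v w e → pc v U = 0 → v.ord R0 = 0 →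
      ∀ α β : L, (U.map (algebraMap K L)).eval α = 0 → (U.map (algebraMap K L)).eval β = 0 →
        0 ≤ w.ord α ∧ (α ≠ β → w.ord (α - β) = 0) ∧
        w.ord ((Polynomial.derivative (U.map (algebraMap K L))).eval α) = 0

/-- the cross ratio -/
noncomputable def cr {L : Type} [Field L] (τ α β γ : L) : L :=
  (τ - α) * (γ - β) / ((τ - β) * (γ - α))

/-- E10: good places -/
def T_GP : Prop := ∀ (k K L : Type) [Field k] [IsAlgClosed k] [CharZero k] [Field K] [Field L]
  [Algebra k K] [Algebra k L] [Algebra K L] [IsScalarTower k K L] [FiniteDimensional K L]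
  [Algebra.EssFiniteType k K], Algebra.trdeg k K = 1 → ∀ (D : Derivation k K K)
  (D' : Derivation k L L), D ≠ 0 → (∀ z : K, D' (algebraMap K L z) = algebraMap K L (D z)) →
  ∀ (U : Polynomial K), U.Monic → U.Separable → Polynomial.Splits (U.map (algebraMap K L)) →
  ∀ (v : DV k K) (w : DV k L) (e : ℕ), Over v w e → pc v U = 0 →
  (∀ α β : L, (U.map (algebraMap K L)).eval α = 0 → (U.map (algebraMap K L)).eval β = 0 →
    0 ≤ w.ord α ∧ (α ≠ β → w.ord (α - β) = 0) ∧
    w.ord ((Polynomial.derivative (U.map (algebraMap K L))).eval α) = 0) →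
  ∀ τ : K, U.eval τ ≠ 0 → v.ord (U.eval τ) = -(U.natDegree * p1 v τ) →
  ∀ α β γ : L, (U.map (algebraMap K L)).eval α = 0 → (U.map (algebraMap K L)).eval β = 0 →
    (U.map (algebraMap K L)).eval γ = 0 → α ≠ β → β ≠ γ → α ≠ γ →
  w.ord (cr (algebraMap K L τ) α β γ) = 0 ∧ w.ord (1 - cr (algebraMap K L τ) α β γ) = 0 ∧
    ge w (e * ordD v D) (D' (cr (algebraMap K L τ) α β γ))

/-- E11: Mason's inequality for `t` and `1 - t`, places of `K` outside `S` are good -/
def T_MS : Prop := ∀ (k K L : Type) [Field k] [IsAlgClosed k] [CharZero k] [Field K] [Field L]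
  [Algebra k K] [Algebra k L] [Algebra K L] [IsScalarTower k K L] [FiniteDimensional K L]
  [Algebra.EssFiniteType k K] [Algebra.EssFiniteType k L], Algebra.trdeg k K = 1 →
  Algebra.trdeg k L = 1 → ∀ (D : Derivation k K K)
  (D' : Derivation k L L), D ≠ 0 → D' ≠ 0 →
  (∀ z : K, D' (algebraMap K L z) = algebraMap K L (D z)) →
  ∀ (S : Finset (DV k K)) (t : L), D' t ≠ 0 →
  (∀ (v : DV k K) (w : DV k L) (e : ℕ), Over v w e → v ∉ S →
    w.ord t = 0 ∧ w.ord (1 - t) = 0 ∧ ge w (e * ordD v D) (D' t)) →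
  (h1 k t : ℤ) ≤ Module.finrank K L * (canDeg D + S.card)

/-- E12: from the cross ratio to `τ` -/
def T_TA : Prop := ∀ (k K L : Type) [Field k] [IsAlgClosed k] [CharZero k] [Field K] [Field L]
  [Algebra k K] [Algebra k L] [Algebra K L] [IsScalarTower k K L] [FiniteDimensional K L]
  [Algebra.EssFiniteType k K] [Algebra.EssFiniteType k L], Algebra.trdeg k K = 1 →
  Algebra.trdeg k L = 1 → ∀ (U : Polynomial K), U.Monic → ∀ (τ : K) (α β γ : L),
  (U.map (algebraMap K L)).eval α = 0 → (U.map (algebraMap K L)).eval β = 0 →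
  (U.map (algebraMap K L)).eval γ = 0 → α ≠ β → β ≠ γ → α ≠ γ →
  algebraMap K L τ ≠ α → algebraMap K L τ ≠ β → algebraMap K L τ ≠ γ →
  Module.finrank K L * h1 k τ ≤ h1 k (cr (algebraMap K L τ) α β γ) +
    2 * Module.finrank K L * hP k U

/-- E13: Mason's inequality with moving roots -/
def T_MM : Prop := ∀ r : ℕ, ∃ C : ℕ, ∀ (k K : Type) [Field k] [IsAlgClosed k] [CharZero k]
  [Field K] [Algebra k K] [Algebra.EssFiniteType k K], Algebra.trdeg k K = 1 →
  ∀ (D : Derivation k K K), D ≠ 0 → ∀ (U : Polynomial K), U.Monic → U.Separable →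
  3 ≤ U.natDegree → U.natDegree ≤ r → ∀ (τ : K) (S : Finset (DV k K)), U.eval τ ≠ 0 →
  (∀ v, v ∉ S → pc v U = 0 ∧ v.ord (U.eval τ) = -(U.natDegree * p1 v τ)) →
  0 ≤ canDeg D + S.card → (h1 k τ : ℤ) ≤ canDeg D + S.card + C * hP k U

/-- E: points on a line of small height -/
def T_E : Prop := ∀ n d : ℕ, ∃ C : ℕ, ∀ (k K : Type) [Field k] [IsAlgClosed k] [CharZero k]
  [Field K] [Algebra k K] [Algebra.EssFiniteType k K], Algebra.trdeg k K = 1 →
  ∀ (D : Derivation k K K), D ≠ 0 → ∀ (F : MvPolynomial (Fin (n + 1)) k), F.IsHomogeneous d →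
  ∀ (x y : Fin (n + 1) → K) (p a b : Fin (n + 1)), x p = 1 → Indep x y →
  x a * y b - x b * y a ≠ 0 → eval x (up K F) ≠ 0 → ¬ TwoRoots d (up K F) x y →
  ∀ S : Finset (DV k K),
  (∀ v, v ∉ S → v.ord (eval x (up K F)) = -(d * poleOrder v x)) → 0 ≤ canDeg D + S.card →
  (deg k x : ℤ) ≤ C * (canDeg D + S.card + hln k x y a b)

end Pool.Agent.H17.VG
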