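import Pool.Agent.H17.VG.TargetsF

/-!
# MP_70ba79_ag: the final statement (row FIN of the board `vyc_modules`)
-/

set_option autoImplicit false

namespace Pool.Agent.H17.VG

open MvPolynomial SC Pool.Agent.H27.LV

theorem fin (hMN : T_MN) (hVE : T_VE) (hVD : T_VD) (hX : T_X) : T_FIN := by
  intro n e hn hne
  obtain ⟨C, hC⟩ := hMN n e hn hne
  refine ⟨(e + 1) * C, ?_⟩
  intro k _ _ _ c hc
  refine ⟨?_, ?_⟩
  · intro K _ _ _ htr S z hz hreg hnc hexc D hD
    obtain ⟨x, p, hp, hF, hzx⟩ := hVE k K n (e + 1) c z (by omega) hz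
    obtain ⟨h1, h2, h3⟩ := hVD k K htr n (e + 1) c z x p (by omega) hp hF hzx
    have h4 := hC k c hc K htr D hD x p hp (h3 hnc) hF
      (fun y hy htwo => hexc ⟨x, y, p, hp, hy, htwo, hF, hzx⟩) S
      (fun v hv => h1 v fun M => hreg v hv M)
    rw [h2]
    push_cast
    calc ((e : ℤ) + 1) * deg k x ≤ ((e : ℤ) + 1) * (C * (canDeg D + S.card)) := by
          refine mul_le_mul_of_nonneg_left h4 (by positivity)
      _ = ((e : ℤ) + 1) * C * (canDeg D + S.card) := by ring
  · exact hX k n (e + 1) c (by omega) hc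

end Pool.Agent.H17.VG
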