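import Pool.Agent.H17.VG.TargetsF
import Pool.Agent.H17.VG.TT

/-!
# MP_70ba79_ag: points of the complement of a hypersurface and its exceptional set
-/

set_option autoImplicit false

namespace Pool.Agent.H17.VG

open MvPolynomial SC Pool.Agent.H27.LV

/-- exponents `(d - 1) e_0 + e_i` -/
def mz (n d : ℕ) (hd : 1 ≤ d) (i : Fin (n + 1)) : Mon (n + 1) d :=
  ⟨fun j => (if j = 0 then d - 1 else 0) + (if j = i then 1 else 0), by
    rw [Finset.sum_add_distrib, Finset.sum_ite_eq' Finset.univ (0 : Fin (n + 1)),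
      Finset.sum_ite_eq' Finset.univ i]
    simp only [Finset.mem_univ, if_true]
    omega⟩

lemma prod_mz {K : Type} [Field K] {n d : ℕ} (hd : 1 ≤ d) (i : Fin (n + 1))
    (x : Fin (n + 1) → K) : ∏ j, x j ^ (mz n d hd i).1 j = x 0 ^ (d - 1) * x i := by
  simp only [mz, pow_add, Finset.prod_mul_distrib]
  have h1 : ∀ j : Fin (n + 1), x j ^ (if j = 0 then d - 1 else 0) =
      if j = 0 then x 0 ^ (d - 1) else 1 := by
    intro j
    by_cases hj : j = 0
    · subst hj; simp
    · simp [hj]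
  have h2 : ∀ j : Fin (n + 1), x j ^ (if j = i then 1 else 0) = if j = i then x i else 1 := by
    intro j
    by_cases hj : j = i
    · subst hj; simp
    · simp [hj]
  simp_rw [h1, h2]
  rw [Finset.prod_ite_eq' Finset.univ (0 : Fin (n + 1)), Finset.prod_ite_eq' Finset.univ i]
  simp

/-- `F (x)` is the sum of the values of its monomials -/
lemma sum_frm {k K : Type} [Field k] [Field K] [Algebra k K] {n d : ℕ} (c : Mon (n + 1) d → k)
    (x : Fin (n + 1) → K) :
    ∑ M, algebraMap k K (c M) * ∏ i, x i ^ M.1 i = eval x (up K (frm c)) := by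
  unfold up frm
  rw [map_sum, map_sum]
  refine Finset.sum_congr rfl fun M _ => ?_
  rw [map_mul, map_C, map_mul, eval_C]
  congr 1
  unfold mono
  rw [map_monomial, map_one, eval_monomial, one_mul]
  rw [Finsupp.prod_fintype _ _ (fun i => pow_zero _)]
  rfl

/-- points of projective space where `F` does not vanish give points of `X` -/
theorem pts {k K : Type} [Field k] [Field K] [Algebra k K] {n d : ℕ} (c : Mon (n + 1) d → k)
    (z : Mon (n + 1) d → K) (x : Fin (n + 1) → K) (hF : eval x (up K (frm c)) ≠ 0)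
    (hz : ∀ M : Mon (n + 1) d, z M = (∏ i, x i ^ M.1 i) / eval x (up K (frm c))) :
    ∀ g ∈ eqs c, aeval z g = 0 := by
  rintro g (⟨M1, M2, M3, M4, h, rfl⟩ | rfl)
  · rw [map_sub, map_mul, map_mul, aeval_X, aeval_X, aeval_X, aeval_X, hz, hz, hz, hz,
      div_mul_div_comm, div_mul_div_comm, ← Finset.prod_mul_distrib, ← Finset.prod_mul_distrib]
    have h1 : ∏ i, (x i ^ M1.1 i * x i ^ M2.1 i) = ∏ i, (x i ^ M3.1 i * x i ^ M4.1 i) := by
      refine Finset.prod_congr rfl fun i _ => ?_
      rw [← pow_add, ← pow_add, h i]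
    rw [h1, sub_self]
  · rw [map_sub, map_sum, map_one]
    have h1 : ∀ M : Mon (n + 1) d, aeval z (C (c M) * X M) =
        (algebraMap k K (c M) * ∏ i, x i ^ M.1 i) / eval x (up K (frm c)) := by
      intro M
      rw [map_mul, aeval_X, aeval_C, hz, mul_div_assoc]
    rw [Finset.sum_congr rfl fun M _ => h1 M, ← Finset.sum_div, sum_frm, div_self hF, sub_self]

/-- the hypersurface `Φ = 0` is contained in a proper closed subset `Ψ = 0` of `X` -/
theorem psi {k : Type} [Field k] [Infinite k] {n d m : ℕ} (hd : 1 ≤ d) (c : Mon (n + 1) d → k)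
    (hc : frm c ≠ 0) (Φ : MvPolynomial (Fin (n + 1)) k) (hΦ : Φ ≠ 0) (hm : Φ.IsHomogeneous m) :
    ∃ Ψ : MvPolynomial (Mon (n + 1) d) k,
      (∃ z : Mon (n + 1) d → k, (∀ g ∈ eqs c, aeval z g = 0) ∧ aeval z Ψ ≠ 0) ∧
      ∀ (K : Type) [Field K] [Algebra k K] (z : Mon (n + 1) d → K) (x : Fin (n + 1) → K),
        (∀ M, z M = (∏ i, x i ^ M.1 i) / eval x (up K (frm c))) →
        eval x (up K Φ) = 0 → aeval z Ψ = 0 := by
  have key : ∀ (K : Type) [Field K] [Algebra k K] (z : Mon (n + 1) d → K) (x : Fin (n + 1) → K),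
      (∀ M, z M = (∏ i, x i ^ M.1 i) / eval x (up K (frm c))) →
      aeval z (aeval (fun i => (X (mz n d hd i) : MvPolynomial (Mon (n + 1) d) k)) Φ) =
        (x 0 ^ (d - 1) / eval x (up K (frm c))) ^ m * eval x (up K Φ) := by
    intro K _ _ z x hz
    have h1 : aeval z (aeval (fun i => (X (mz n d hd i) : MvPolynomial (Mon (n + 1) d) k)) Φ) =
        aeval (fun i => (x 0 ^ (d - 1) / eval x (up K (frm c))) * x i) Φ := by
      rw [← AlgHom.comp_apply, comp_aeval]
      congr 1
      refine congrArg _ ?_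
      funext i
      rw [aeval_X, hz, prod_mz, mul_div_right_comm]
    have h2 := TT.eval_smul_hom (hm.map (algebraMap k K)) (x 0 ^ (d - 1) / eval x (up K (frm c))) x
    rw [h1]
    refine Eq.trans ?_ h2
    rw [eval_map, aeval_def]
  refine ⟨aeval (fun i => (X (mz n d hd i) : MvPolynomial (Mon (n + 1) d) k)) Φ, ?_, ?_⟩
  · obtain ⟨x, hx⟩ : ∃ x : Fin (n + 1) → k, eval x (X 0 * frm c * Φ) ≠ 0 := by
      by_contra hcon
      push Not at hcon
      have h1 : (X 0 * frm c * Φ : MvPolynomial (Fin (n + 1)) k) = 0 := by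
        apply MvPolynomial.funext
        intro x
        rw [hcon x, map_zero]
      exact mul_ne_zero (mul_ne_zero (X_ne_zero 0) hc) hΦ h1
    rw [map_mul, map_mul, eval_X] at hx
    have hx0 : x 0 ≠ 0 := fun h => hx (by rw [h, zero_mul, zero_mul])
    have hxF : eval x (frm c) ≠ 0 := fun h => hx (by rw [h, mul_zero, zero_mul])
    have hxΦ : eval x Φ ≠ 0 := fun h => hx (by rw [h, mul_zero])
    have hup : ∀ G : MvPolynomial (Fin (n + 1)) k, up k G = G := by
      intro G
      unfold up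
      rw [Algebra.algebraMap_self, map_id]
    have hxF' : eval x (up k (frm c)) ≠ 0 := by rwa [hup]
    refine ⟨fun M => (∏ i, x i ^ M.1 i) / eval x (up k (frm c)),
      pts c _ x hxF' fun M => rfl, ?_⟩
    rw [key k _ x fun M => rfl, hup Φ]
    exact mul_ne_zero (pow_ne_zero _ (div_ne_zero (pow_ne_zero _ hx0) hxF')) hxΦ
  · intro K _ _ z x hz h0
    rw [key K z x hz, h0, mul_zero]

end Pool.Agent.H17.VG
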