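import Pool.Agent.H17.VG.Defs

/-!
# MP_70ba79_ag: targets of the board `vyc_modules`, part B (bracket lemma)
-/

set_option autoImplicit false

namespace Pool.Agent.H17.VG

open MvPolynomial SC Pool.Agent.H27.LV

/-- B1: `cD θ` is a derivation of the ring of polynomials, linear in `θ` -/
def T_CD : Prop := ∀ (R K : Type) [Field R] [Field K] [Algebra R K] (n : ℕ)
  (θ θ' : Derivation R K K) (G G' : MvPolynomial (Fin (n + 1)) K) (a b : K)
  (m : Fin (n + 1) →₀ ℕ) (i : Fin (n + 1)) (d : ℕ),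
  coeff m (cD θ G) = θ (coeff m G) ∧
  cD θ (G + G') = cD θ G + cD θ G' ∧
  cD θ (G * G') = cD θ G * G' + G * cD θ G' ∧
  cD θ (C a : MvPolynomial (Fin (n + 1)) K) = C (θ a) ∧
  cD θ (X i : MvPolynomial (Fin (n + 1)) K) = 0 ∧
  cD (a • θ + b • θ') G = C a * cD θ G + C b * cD θ' G ∧
  cD θ (pderiv i G) = pderiv i (cD θ G) ∧
  (G.IsHomogeneous d → (cD θ G).IsHomogeneous d)

/-- B1': the same for polynomials in one variable -/
def T_PD : Prop := ∀ (R K : Type) [Field R] [Field K] [Algebra R K]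
  (θ : Derivation R K K) (P P' : Polynomial K) (a : K),
  pD θ (P + P') = pD θ P + pD θ P' ∧ pD θ (P * P') = pD θ P * P' + P * pD θ P' ∧
  pD θ (Polynomial.C a) = Polynomial.C (θ a) ∧ pD θ Polynomial.X = 0 ∧ pD θ 0 = 0

/-- B2: `opF` is additive, linear in the operator and preserves the degree; `opV` is linear in
the operator -/
def T_OP : Prop := ∀ (R K : Type) [Field R] [Field K] [Algebra R K] (n d : ℕ)
  (τ τ' : Op R K n) (G G' : MvPolynomial (Fin (n + 1)) K) (a b : K) (z : Fin (n + 1) → K),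
  opF τ (G + G') = opF τ G + opF τ G' ∧
  opF τ (G * G') = opF τ G * G' + G * opF τ G' ∧
  opF (a • τ + b • τ') G = C a * opF τ G + C b * opF τ' G ∧
  opV (a • τ + b • τ') z = a • opV τ z + b • opV τ' z ∧
  (G.IsHomogeneous d → (opF τ G).IsHomogeneous d)

/-- B3: evaluation at a vector over `K` -/
def T_EV : Prop := ∀ (R K : Type) [Field R] [Field K] [Algebra R K] (n : ℕ)
  (τ : Op R K n) (G : MvPolynomial (Fin (n + 1)) K) (z : Fin (n + 1) → K),
  τ.1 (eval z G) = eval z (opF τ G) + eval z (dir (opV τ z) G)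

/-- B4: restriction to a line -/
def T_RE : Prop := ∀ (R K : Type) [Field R] [Field K] [Algebra R K] (n : ℕ)
  (τ : Op R K n) (G : MvPolynomial (Fin (n + 1)) K) (x y : Fin (n + 1) → K),
  pD τ.1 (res x y G) = res x y (opF τ G) + res x y (dir (opV τ x) G) +
    Polynomial.X * res x y (dir (opV τ y) G)

/-- B5: operators and directional derivatives -/
def T_DC : Prop := ∀ (R K : Type) [Field R] [Field K] [Algebra R K] (n : ℕ)
  (τ : Op R K n) (G : MvPolynomial (Fin (n + 1)) K) (w : Fin (n + 1) → K),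
  opF τ (dir w G) = dir w (opF τ G) + dir (opV τ w) G

/-- B6: the bracket -/
def T_BR : Prop := ∀ (R K : Type) [Field R] [Field K] [Algebra R K] (n : ℕ)
  (τ τ' : Op R K n) (G : MvPolynomial (Fin (n + 1)) K) (z : Fin (n + 1) → K),
  opF (brk τ τ') G = opF τ (opF τ' G) - opF τ' (opF τ G) ∧
  opV (brk τ τ') z = opV τ (opV τ' z) - opV τ' (opV τ z)

/-- B7: operators with the same symbol differ by a multiple of `D` -/
def T_WD : Prop := ∀ (R K : Type) [Field R] [Field K] [Algebra R K] (n d : ℕ)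
  (F : MvPolynomial (Fin (n + 1)) K) (D : Derivation R K K), Sys d F D →
  ∀ (τ τ' : Op R K n), opF τ F = opF τ' F →
  ∃ c : K, ∀ z : Fin (n + 1) → K, opV τ z = opV τ' z + c • fun i => D (z i)

/-- B8: elementary facts on `dir`, `res` and homogeneous polynomials -/
def T_RS : Prop := ∀ (K : Type) [Field K] (n e : ℕ)
  (G G' : MvPolynomial (Fin (n + 1)) K) (w w' ξ x y : Fin (n + 1) → K) (a b : K),
  res x y (G + G') = res x y G + res x y G' ∧ res x y (G * G') = res x y G * res x y G' ∧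
  res x y (C a) = Polynomial.C a ∧
  res x y (lin ξ) = Polynomial.C (∑ i, ξ i * x i) + Polynomial.C (∑ i, ξ i * y i) * Polynomial.X ∧
  dir w (G * G') = dir w G * G' + G * dir w G' ∧ dir w (lin ξ) = C (∑ i, ξ i * w i) ∧
  dir (a • w + b • w') G = C a * dir w G + C b * dir w' G ∧
  (res x y G).coeff 0 = eval x G ∧
  Polynomial.derivative (res x y G) = res x y (dir y G) ∧
  (G.IsHomogeneous e → eval x (dir x G) = e * eval x G) ∧
  (G.IsHomogeneous e → res x y (dir x G) + Polynomial.X * res x y (dir y G) =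
    (e : Polynomial K) * res x y G) ∧
  (G.IsHomogeneous e → (res x y G).natDegree ≤ e) ∧
  (G.IsHomogeneous (e + 1) → (dir w G).IsHomogeneous e) ∧
  (G.IsHomogeneous e → res x y G = 0 → res x y (dir x G) = 0 ∧ res x y (dir y G) = 0)

/-- B9: restriction is onto -/
def T_RO : Prop := ∀ (K : Type) [Field K] (n e : ℕ) (x y : Fin (n + 1) → K), Indep x y →
  ∀ P : Polynomial K, P.natDegree ≤ e →
  ∃ G : MvPolynomial (Fin (n + 1)) K, G.IsHomogeneous e ∧ res x y G = P

/-- B10: the forms which vanish on a line -/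
def T_IL : Prop := ∀ (K : Type) [Field K] (n e : ℕ) (x y : Fin (n + 1) → K), Indep x y →
  ∀ G : MvPolynomial (Fin (n + 1)) K, G.IsHomogeneous (e + 1) → res x y G = 0 → G ∈ Il e x y

/-- B11: linear forms with given values -/
def T_LF : Prop := ∀ (K : Type) [Field K] (n : ℕ) (x y : Fin (n + 1) → K), Indep x y →
  (∃ ξ : Fin (n + 1) → K, ∑ i, ξ i * x i = 0 ∧ ∑ i, ξ i * y i = 1) ∧
  (∃ ξ : Fin (n + 1) → K, ∑ i, ξ i * x i = 1) ∧
  ∀ w : Fin (n + 1) → K, w ∉ Submodule.span K {x, y} →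
    ∃ ξ : Fin (n + 1) → K, ∑ i, ξ i * x i = 0 ∧ ∑ i, ξ i * y i = 0 ∧ ∑ i, ξ i * w i = 1

/-- B12: every vector is, up to a multiple of `x`, a velocity of an operator whose symbol vanishes
at `x` -/
def T_SU : Prop := ∀ (R K : Type) [Field R] [Field K] [CharZero K] [Algebra R K] (n e : ℕ)
  (F : MvPolynomial (Fin (n + 1)) K) (x : Fin (n + 1) → K),
  F.IsHomogeneous (e + 1) → eval x F ≠ 0 → ∀ w : Fin (n + 1) → K,
  ∃ (τ : Op R K n) (c : K), eval x (opF τ F) = 0 ∧ opV τ x = w + c • x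

/-- polynomials `P` of degree at most `e` such that an operator whose symbol restricts to `T P` has
its velocity in `U` -/
noncomputable def Yl {R K : Type} [Field R] [Field K] [Algebra R K] {n : ℕ} (e : ℕ)
    (F : MvPolynomial (Fin (n + 1)) K) (x y : Fin (n + 1) → K)
    (U : Submodule K (Fin (n + 1) → K)) : Submodule K (Polynomial K) :=
  Submodule.span K {P | P.natDegree ≤ e ∧ ∃ τ : Op R K n,
    res x y (opF τ F) = Polynomial.X * P ∧ opV τ x ∈ U}

/-- B13: codimension of `Yl` (`ψ : P ↦ opV τ x` mod `Ut (Il)` is well defined by T_IL, onto by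
T_SU); membership is as in the definition -/
def T_PS : Prop := ∀ (R K : Type) [Field R] [Field K] [CharZero K] [Algebra R K] (n e : ℕ)
  (F : MvPolynomial (Fin (n + 1)) K) (D : Derivation R K K) (x y : Fin (n + 1) → K),
  Sys (e + 1) F D → Indep x y → eval x F ≠ 0 → ∀ m : ℕ,
  Module.finrank K (Ut R F x (Il e x y)) + m = n + 1 →
  (∀ P ∈ Yl (R := R) e F x y (Ut R F x (Il e x y)), P.natDegree ≤ e ∧ ∃ τ : Op R K n,
    res x y (opF τ F) = Polynomial.X * P ∧ opV τ x ∈ Ut R F x (Il e x y)) ∧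
  FiniteDimensional K (Yl (R := R) e F x y (Ut R F x (Il e x y))) ∧
  Module.finrank K (Yl (R := R) e F x y (Ut R F x (Il e x y))) + m ≤ e + 1

/-- B14: `{res (dir η G)}`, `G` in the ideal of the line and in the image of the operators which fix
`x`, has codimension at most `dim Ut (Il) - 2` -/
def T_IM : Prop := ∀ (R K : Type) [Field R] [Field K] [CharZero K] [Algebra R K] (n e : ℕ)
  (F : MvPolynomial (Fin (n + 1)) K) (D : Derivation R K K) (x y η : Fin (n + 1) → K),
  Sys (e + 1) F D → Indep x y → Indep x (fun i => D (x i)) →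
  η ∉ Submodule.span K {x, y} → ∀ Z : Submodule K (Polynomial K), FiniteDimensional K Z →
  (∀ G ∈ Il e x y, ∀ (τ : Op R K n) (a : K), opF τ F = G → opV τ x = a • x →
    res x y (dir η G) ∈ Z) →
  e + 3 ≤ Module.finrank K Z + Module.finrank K (Ut R F x (Il e x y))

/-- B15: the same for the `Q` with `lin ξ * Q` in the image of the operators which fix `x` -/
def T_IQ : Prop := ∀ (R K : Type) [Field R] [Field K] [CharZero K] [Algebra R K] (n e : ℕ)
  (F : MvPolynomial (Fin (n + 1)) K) (D : Derivation R K K) (x y ξ : Fin (n + 1) → K),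
  Sys (e + 1) F D → Indep x y → Indep x (fun i => D (x i)) →
  ∑ i, ξ i * x i = 0 → ∑ i, ξ i * y i = 0 → ∀ Z : Submodule K (Polynomial K),
  FiniteDimensional K Z →
  (∀ Q : MvPolynomial (Fin (n + 1)) K, Q.IsHomogeneous e → ∀ (τ : Op R K n) (a : K),
    opF τ F = lin ξ * Q → opV τ x = a • x → res x y Q ∈ Z) →
  e + 3 ≤ Module.finrank K Z + Module.finrank K (Ut R F x (Il e x y))

/-- B16: the computation with brackets -/
def T_KY : Prop := ∀ (R K : Type) [Field R] [Field K] [CharZero K] [Algebra R K] (n e : ℕ)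
  (F : MvPolynomial (Fin (n + 1)) K) (D : Derivation R K K) (x y ξ : Fin (n + 1) → K),
  Sys (e + 1) F D → ∑ i, ξ i * x i = 0 → ∑ i, ξ i * y i = 0 →
  ∀ (Q : MvPolynomial (Fin (n + 1)) K) (τ τ' : Op R K n) (a a' : K), Q.IsHomogeneous e →
  opF τ' F = lin ξ * Q → opV τ' x = a' • x → res x y (opF τ F) = 0 → opV τ x = a • x →
  (∃ b : K, opV (brk τ τ') x = b • x) ∧
  res x y (opF (brk τ τ') F) = Polynomial.X * (res x y (dir (opV τ' y) (opF τ F)) -
    Polynomial.C (∑ i, ξ i * opV τ y i) * res x y Q)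

/-- B17: the line is fixed -/
def T_ET : Prop := ∀ (R K : Type) [Field R] [Field K] [CharZero K] [Algebra R K] (n e : ℕ)
  (F : MvPolynomial (Fin (n + 1)) K) (D : Derivation R K K) (x y ξ : Fin (n + 1) → K),
  Sys (e + 1) F D → Indep x y → Indep x (fun i => D (x i)) → eval x F ≠ 0 →
  ∀ m : ℕ, Module.finrank K (Ut R F x (Il e x y)) + m = n + 1 → n + 1 ≤ 2 * m →
  ∑ i, ξ i * x i = 0 → ∑ i, ξ i * y i = 0 →
  ∀ (Q : MvPolynomial (Fin (n + 1)) K) (τ : Op R K n) (a : K), Q.IsHomogeneous e →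
  opF τ F = lin ξ * Q → opV τ x = a • x → opV τ y ∈ Submodule.span K {x, y}

/-- B18: polynomials `res (dir w F)` are in `Yl` -/
def T_JY : Prop := ∀ (R K : Type) [Field R] [Field K] [CharZero K] [Algebra R K] (n e : ℕ)
  (F : MvPolynomial (Fin (n + 1)) K) (D : Derivation R K K) (x y w : Fin (n + 1) → K),
  Sys (e + 1) F D → Indep x y →
  res x y (dir w F) ∈ Yl (R := R) e F x y (Ut R F x (Il e x y))

/-- B19: no relations -/
def T_RL : Prop := ∀ (R K : Type) [Field R] [Field K] [CharZero K] [Algebra R K] (n e : ℕ)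
  (F : MvPolynomial (Fin (n + 1)) K) (D : Derivation R K K) (x y w : Fin (n + 1) → K),
  Sys (e + 1) F D → Indep x y → Indep x (fun i => D (x i)) → eval x F ≠ 0 →
  ∀ m : ℕ, Module.finrank K (Ut R F x (Il e x y)) + m = n + 1 → n + 1 ≤ 2 * m →
  res x y (dir w F) = 0 → w ∈ Submodule.span K {x, y}

/-- B20: degenerate restrictions have at most one zero -/
def T_DG : Prop := ∀ (K : Type) [Field K] [CharZero K] (n e : ℕ)
  (F : MvPolynomial (Fin (n + 1)) K) (x y w : Fin (n + 1) → K), F.IsHomogeneous (e + 1) →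
  Indep x y → eval x F ≠ 0 → ¬ TwoRoots (e + 1) F x y →
  w ∈ Submodule.span K {x, y} → res x y (dir w F) = 0 → w = 0

/-- B: the main lemma -/
def T_B : Prop := ∀ (R K : Type) [Field R] [Field K] [CharZero K] [Algebra R K] (n e : ℕ)
  (F : MvPolynomial (Fin (n + 1)) K) (D : Derivation R K K) (x y : Fin (n + 1) → K),
  Sys (e + 1) F D → Indep x y → Indep x (fun i => D (x i)) → eval x F ≠ 0 →
  ¬ TwoRoots (e + 1) F x y →
  ∀ m : ℕ, Module.finrank K (Ut R F x (Il e x y)) + m = n + 1 → n + 1 ≤ 2 * m → m + n ≤ e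

end Pool.Agent.H17.VG
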