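import Pool.Agent.H17.VG.Defs

/-!
# MP_70ba79_ag: targets of the board `vyc_modules`, part C (linear algebra of the steps)
-/

set_option autoImplicit false

namespace Pool.Agent.H17.VG

open MvPolynomial SC Pool.Agent.H27.LV

/-- sum of the images of `B · (Q i)` -/
def im {K V E N ι : Type} [Field K] [AddCommGroup V] [Module K V] [AddCommGroup E] [Module K E]
    [AddCommGroup N] [Module K N] (B : V →ₗ[K] E →ₗ[K] N) (Q : ι → E) : Submodule K N :=
  Submodule.span K {w | ∃ v i, w = B v (Q i)}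

/-- C1: linear spaces of maps of rank at most one, whose images do not lie on a line, have a
common kernel of codimension one. `β v q = ∑ …`: here the space of maps is parametrised by `E`, and
`N` is considered modulo `U`. -/
def T_R1 : Prop := ∀ (K V E N : Type) [Field K] [AddCommGroup V] [Module K V] [AddCommGroup E]
  [Module K E] [AddCommGroup N] [Module K N] [FiniteDimensional K V] [FiniteDimensional K N]
  (B : V →ₗ[K] E →ₗ[K] N) (U : Submodule K N),
  (∀ q : E, Module.finrank K ↥(U ⊔ Submodule.span K {w | ∃ v, w = B v q}) ≤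
    Module.finrank K U + 1) →
  Submodule.span K {w | ∃ v q, w = B v q} = ⊤ → Module.finrank K U + 2 ≤ Module.finrank K N →
  ∃ φ : V →ₗ[K] K, φ ≠ 0 ∧ ∀ v q, φ v = 0 → B v q ∈ U

/-- C2: independence is an open condition on a line of families: if `w` or `w'` is independent
then `w + ε w'` is independent for all `ε` outside a finite set -/
def T_OE : Prop := ∀ (K N ι : Type) [Field K] [AddCommGroup N] [Module K N] [Finite ι]
  (w w' : ι → N), LinearIndependent K w ∨ LinearIndependent K w' →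
  {ε : K | ¬ LinearIndependent K fun i => w i + ε • w' i}.Finite

/-- C3: the same for the dimension of `im`: if `r ≤ dim im Q` or `r ≤ dim im Q'` then
`r ≤ dim im (Q + ε Q')` for almost all `ε` -/
def T_OI : Prop := ∀ (K V E N ι : Type) [Field K] [AddCommGroup V] [Module K V] [AddCommGroup E]
  [Module K E] [AddCommGroup N] [Module K N] [FiniteDimensional K N] [Finite ι]
  (B : V →ₗ[K] E →ₗ[K] N) (Q Q' : ι → E) (r : ℕ),
  (r ≤ Module.finrank K (im B Q) ∨ r ≤ Module.finrank K (im B Q')) →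
  {ε : K | ¬ r ≤ Module.finrank K (im B fun i => Q i + ε • Q' i)}.Finite

/-- C: the lemma on steps. `dim V = n`, `dim N = n - 1`, all hyperplanes `ker φ` of `V` satisfy
`dim N / B (ker φ, E) ≤ δ`, `n ≤ 2 δ`. Then `δ - 1` elements of `E` suffice for `dim im ≥ n - 2` -/
def T_C : Prop := ∀ (K V E N : Type) [Field K] [CharZero K] [AddCommGroup V] [Module K V]
  [AddCommGroup E] [Module K E] [AddCommGroup N] [Module K N] [FiniteDimensional K V]
  [FiniteDimensional K N] (B : V →ₗ[K] E →ₗ[K] N) (n δ : ℕ),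
  Module.finrank K V = n → Module.finrank K N + 1 = n → n ≤ 2 * δ →
  Submodule.span K {w | ∃ v q, w = B v q} = ⊤ →
  (∀ φ : V →ₗ[K] K, φ ≠ 0 →
    n ≤ Module.finrank K (Submodule.span K {w | ∃ v q, φ v = 0 ∧ w = B v q}) + 1 + δ) →
  ∃ Q : Fin (δ - 1) → E, n ≤ Module.finrank K (im B Q) + 2

/-- C4: points over an infinite subfield -/
def T_KP : Prop := ∀ (k K V N ι κ : Type) [Field k] [Infinite k] [Field K] [Algebra k K]
  [AddCommGroup V] [Module K V] [AddCommGroup N] [Module K N] [FiniteDimensional K N] [Finite ι]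
  [Finite κ] (B : V →ₗ[K] (κ → K) →ₗ[K] N) (Q : ι → κ → K) (r : ℕ),
  r ≤ Module.finrank K (im B Q) →
  ∃ Q' : ι → κ → k, r ≤ Module.finrank K (im B fun i j => algebraMap k K (Q' i j))

/-- the linear forms which vanish at `x` -/
def Vx {K : Type} [Field K] {n : ℕ} (x : Fin (n + 1) → K) : Submodule K (Fin (n + 1) → K) where
  carrier := {ξ | ∑ i, ξ i * x i = 0}
  zero_mem' := by simp
  add_mem' := by
    intro a b ha hb
    simp only [Set.mem_ofPred_eq, Pi.add_apply, add_mul, Finset.sum_add_distrib] at *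
    rw [ha, hb, add_zero]
  smul_mem' := by
    intro c a ha
    simp only [Set.mem_ofPred_eq, Pi.smul_apply, smul_eq_mul, mul_assoc] at *
    rw [← Finset.mul_sum, ha, mul_zero]

/-- C5: forms of degree `e + 1` which vanish at a point -/
def T_IP : Prop := ∀ (K : Type) [Field K] (n e : ℕ) (x : Fin (n + 1) → K), x ≠ 0 →
  ∀ G : MvPolynomial (Fin (n + 1)) K, G.IsHomogeneous (e + 1) → eval x G = 0 →
  G ∈ Submodule.span K {G | ∃ (ξ : Fin (n + 1) → K) (Q : MvPolynomial (Fin (n + 1)) K),
    ∑ i, ξ i * x i = 0 ∧ Q.IsHomogeneous e ∧ G = lin ξ * Q}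

/-- C6: the bilinear map `B`: `ξ` (linear form vanishing at `x`) and `q` (coefficients of a form of
degree `e`) go to the velocity of the operators with symbol `lin ξ * frm q`, modulo `x` and `D x`.
Dictionary between spans of values of `B` and `Ut`. -/
def T_BI : Prop := ∀ (R K : Type) [Field R] [Field K] [CharZero K] [Algebra R K] (n e : ℕ)
  (F : MvPolynomial (Fin (n + 1)) K) (D : Derivation R K K) (x : Fin (n + 1) → K),
  Sys (e + 1) F D → Indep x (fun i => D (x i)) →
  ∃ B : Vx x →ₗ[K] (Mon (n + 1) e → K) →ₗ[K]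
      ((Fin (n + 1) → K) ⧸ Submodule.span K {x, fun i => D (x i)}),
    ∀ P : Set (Vx x × (Mon (n + 1) e → K)),
      Module.finrank K (Ut R F x (Submodule.span K {G | ∃ p ∈ P, G = lin p.1.1 * frm p.2})) =
        Module.finrank K (Submodule.span K {w | ∃ p ∈ P, w = B p.1 p.2}) + 2

/-- C7: the velocities of all operators whose symbol vanishes at `x` -/
def T_TP : Prop := ∀ (R K : Type) [Field R] [Field K] [CharZero K] [Algebra R K] (n e : ℕ)
  (F : MvPolynomial (Fin (n + 1)) K) (D : Derivation R K K) (x : Fin (n + 1) → K),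
  Sys (e + 1) F D → eval x F ≠ 0 →
  Ut R F x (Submodule.span K {G | ∃ (ξ : Fin (n + 1) → K) (q : Mon (n + 1) e → K),
    ∑ i, ξ i * x i = 0 ∧ G = lin ξ * frm q}) = ⊤

/-- C8: the steps. `δ = e - n`. -/
def T_ST : Prop := ∀ (R k K : Type) [Field R] [Field k] [Field K] [CharZero k] [CharZero K]
  [Algebra k K] [Algebra R K] (n e : ℕ) (F : MvPolynomial (Fin (n + 1)) K) (D : Derivation R K K)
  (x : Fin (n + 1) → K), 1 ≤ n → 3 * n ≤ 2 * e → Sys (e + 1) F D →
  Indep x (fun i => D (x i)) → eval x F ≠ 0 →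
  (∀ y, Indep x y → ¬ TwoRoots (e + 1) F x y) →
  ∃ Q : Fin (e - n - 1) → Mon (n + 1) e → k,
    n ≤ Module.finrank K (Ut R F x (PQ x fun j => up K (frm (Q j))))

/-- C9: one more step, with a monomial -/
def T_SM : Prop := ∀ (R k K : Type) [Field R] [Field k] [Field K] [CharZero K]
  [Algebra k K] [Algebra R K] (n e s : ℕ) (F : MvPolynomial (Fin (n + 1)) K)
  (D : Derivation R K K) (x : Fin (n + 1) → K), Sys (e + 1) F D → eval x F ≠ 0 →
  ∀ Q : Fin s → Mon (n + 1) e → k,
  Module.finrank K (Ut R F x (PQ x fun j => up K (frm (Q j)))) = n →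
  ∃ Q' : Mon (n + 1) e → k, ∃ (ξ : Fin (n + 1) → K) (τ : Op R K n), ∑ i, ξ i * x i = 0 ∧
    opF τ F = lin ξ * up K (frm Q') ∧
    opV τ x ∉ Ut R F x (PQ x fun j => up K (frm (Q j)))

end Pool.Agent.H17.VG
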