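import Pool.Agent.H17.VG.Defs

/-!
# MP_70ba79_ag: targets of the board `vyc_modules`, part X (the exceptional set)
-/

set_option autoImplicit false

namespace Pool.Agent.H17.VG

open MvPolynomial SC Pool.Agent.H27.LV

/-- X1: more polynomials than variables are algebraically dependent -/
def T_AD : Prop := ∀ (σ ρ : Type) [Finite σ] [Finite ρ] (f : ρ → MvPolynomial σ ℚ),
  Nat.card σ < Nat.card ρ → ∃ Ψ : MvPolynomial ρ ℚ, Ψ ≠ 0 ∧ aeval f Ψ = 0

/-- X2: normal form of a line through `x`, `x p = 1` -/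
def T_NF : Prop := ∀ (K : Type) [Field K] (n d : ℕ) (F : MvPolynomial (Fin (n + 1)) K)
  (x y : Fin (n + 1) → K) (p : Fin (n + 1)), F.IsHomogeneous d → x p = 1 → Indep x y →
  TwoRoots d F x y → ∃ (y' : Fin (n + 1) → K) (q : Fin (n + 1)), q ≠ p ∧ y' p = 0 ∧ y' q = 1 ∧
    y' ∈ Submodule.span K {x, y} ∧ TwoRoots d F x y'

/-- X3: universal equation, for given `p`, `q`, `a + b = d`: the coefficients `c` of a form and the
coordinates `x_i`, `i ≠ p`, of a point (`x p = 1`) such that
`F (x + T y) = F (x) (1 + α T) ^ a (1 + β T) ^ b` for some `y`, `y p = 0`, `y q = 1`, and some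
`α`, `β` satisfy a fixed polynomial equation over the rational numbers. (In coordinates
`X = s x + t y + ∑ z_l e_l`, `l ≠ p, q`, the form has `F (x) (s + α t) ^ a (s + β t) ^ b` as the part
without `z_l`, and its other coefficients are free: the coefficients `c` and `x` are polynomials in
`x_i` (`n` variables), `y_i` (`n - 1`), `α`, `β`, `F (x)` and the other coefficients.) -/
def T_UE : Prop := ∀ (n d a b : ℕ) (p q : Fin (n + 1)), q ≠ p → a + b = d → n + 2 ≤ d →
  ∃ Ψ : MvPolynomial (Mon (n + 1) d ⊕ {i : Fin (n + 1) // i ≠ p}) ℚ, Ψ ≠ 0 ∧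
    ∀ (L : Type) [Field L] [CharZero L] (c : Mon (n + 1) d → L) (x y : Fin (n + 1) → L)
      (α β : L), x p = 1 → y p = 0 → y q = 1 →
      res x y (frm c) = Polynomial.C (eval x (frm c)) *
        (1 + Polynomial.C α * Polynomial.X) ^ a * (1 + Polynomial.C β * Polynomial.X) ^ b →
      aeval (Sum.elim c (fun i : {i : Fin (n + 1) // i ≠ p} => x i.1)) Ψ = 0

/-- X: there is a hypersurface which contains all points on lines with at most two intersections -/
def T_X : Prop := ∀ (k : Type) [Field k] [CharZero k] (n d : ℕ) (c : Mon (n + 1) d → k),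
  n + 2 ≤ d → AlgebraicIndependent ℚ c →
  ∃ (Φ : MvPolynomial (Fin (n + 1)) k) (m : ℕ), Φ ≠ 0 ∧ Φ.IsHomogeneous m ∧
    ∀ (K : Type) [Field K] [Algebra k K] (x y : Fin (n + 1) → K) (p : Fin (n + 1)), x p = 1 →
      Indep x y → TwoRoots d (up K (frm c)) x y → eval x (up K Φ) = 0

end Pool.Agent.H17.VG
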