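import Pool.Agent.H17.VG.TargetsB
import Pool.Agent.H17.VG.TargetsG
import Pool.Agent.H17.VG.TargetsX
import Pool.Agent.H17.VG.TargetsE
import Pool.Agent.H27.LV.Final2

/-!
# MP_70ba79_ag: targets of the board `vyc_modules`, part F (final statements)
-/

set_option autoImplicit false

namespace Pool.Agent.H17.VG

open MvPolynomial SC Pool.Agent.H27.LV

/-- F1: the alternative: bounded height, or a line of small height -/
def T_AL : Prop := ∀ (k : Type) [Field k] [IsAlgClosed k] [CharZero k] (n e : ℕ)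
  (c : Mon (n + 1) (e + 1) → k), 1 ≤ n → 3 * n ≤ 2 * e → 2 ≤ e → AlgebraicIndependent ℚ c →
  ∀ (K : Type) [Field K] [Algebra k K] [Algebra.EssFiniteType k K], Algebra.trdeg k K = 1 →
  ∀ (D : Derivation k K K), D ≠ 0 → ∀ (x : Fin (n + 1) → K) (p : Fin (n + 1)), x p = 1 →
  (∃ j, x j ∉ Set.range (algebraMap k K)) → eval x (up K (frm c)) ≠ 0 →
  (∀ y, Indep x y → ¬ TwoRoots (e + 1) (up K (frm c)) x y) → ∀ S : Finset (DV k K),
  (∀ v, v ∉ S → v.ord (eval x (up K (frm c))) = -((e + 1 : ℕ) * poleOrder v x)) →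
  (deg k x : ℤ) ≤ canDeg D + S.card ∨
  ∃ (y : Fin (n + 1) → K) (a b : Fin (n + 1)), Indep x y ∧ x a * y b - x b * y a ≠ 0 ∧
    (hln k x y a b : ℤ) ≤ canDeg D + S.card

/-- F2: the main theorem, in homogeneous coordinates -/
def T_MN : Prop := ∀ n e : ℕ, 1 ≤ n → 3 * n ≤ 2 * e → ∃ C : ℕ, ∀ (k : Type) [Field k]
  [IsAlgClosed k] [CharZero k] (c : Mon (n + 1) (e + 1) → k), AlgebraicIndependent ℚ c →
  ∀ (K : Type) [Field K] [Algebra k K] [Algebra.EssFiniteType k K], Algebra.trdeg k K = 1 →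
  ∀ (D : Derivation k K K), D ≠ 0 → ∀ (x : Fin (n + 1) → K) (p : Fin (n + 1)), x p = 1 →
  (∃ j, x j ∉ Set.range (algebraMap k K)) → eval x (up K (frm c)) ≠ 0 →
  (∀ y, Indep x y → ¬ TwoRoots (e + 1) (up K (frm c)) x y) → ∀ S : Finset (DV k K),
  (∀ v, v ∉ S → v.ord (eval x (up K (frm c))) = -((e + 1 : ℕ) * poleOrder v x)) →
  (deg k x : ℤ) ≤ C * (canDeg D + S.card)

/-- equations of the affine variety `X`, the complement of the hypersurface `F = 0`, `F = frm c`, in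
its embedding by the functions `y_M = X ^ M / F`, `M` the monomials of degree `d`: the Veronese
equations and `F (y) = 1` -/
noncomputable def eqs {k : Type} [Field k] {n d : ℕ} (c : Mon (n + 1) d → k) :
    Set (MvPolynomial (Mon (n + 1) d) k) :=
  {g | (∃ M1 M2 M3 M4 : Mon (n + 1) d, (∀ i, M1.1 i + M2.1 i = M3.1 i + M4.1 i) ∧
    g = X M1 * X M2 - X M3 * X M4) ∨ g = ∑ M, C (c M) * X M - 1}

/-- the point of `X` lies on a line which meets the hypersurface in at most two points -/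
def excLine {k : Type} [Field k] {n d : ℕ} (c : Mon (n + 1) d → k) (K : Type) [Field K]
    [Algebra k K] (z : Mon (n + 1) d → K) : Prop :=
  ∃ (x y : Fin (n + 1) → K) (p : Fin (n + 1)), x p = 1 ∧ Indep x y ∧
    TwoRoots d (up K (frm c)) x y ∧ eval x (up K (frm c)) ≠ 0 ∧
    ∀ M : Mon (n + 1) d, z M = (∏ i, x i ^ M.1 i) / eval x (up K (frm c))

/-- F3: points of `X` -/
def T_VE : Prop := ∀ (k K : Type) [Field k] [Field K] [Algebra k K] (n d : ℕ)
  (c : Mon (n + 1) d → k) (z : Mon (n + 1) d → K), 1 ≤ d → (∀ g ∈ eqs c, aeval z g = 0) →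
  ∃ (x : Fin (n + 1) → K) (p : Fin (n + 1)), x p = 1 ∧ eval x (up K (frm c)) ≠ 0 ∧
    ∀ M : Mon (n + 1) d, z M = (∏ i, x i ^ M.1 i) / eval x (up K (frm c))

/-- F4: degrees, regularity and constants in terms of `x` -/
def T_VD : Prop := ∀ (k K : Type) [Field k] [IsAlgClosed k] [CharZero k] [Field K] [Algebra k K]
  [Algebra.EssFiniteType k K], Algebra.trdeg k K = 1 → ∀ (n d : ℕ) (c : Mon (n + 1) d → k)
  (z : Mon (n + 1) d → K) (x : Fin (n + 1) → K) (p : Fin (n + 1)), 1 ≤ d → x p = 1 →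
  eval x (up K (frm c)) ≠ 0 →
  (∀ M : Mon (n + 1) d, z M = (∏ i, x i ^ M.1 i) / eval x (up K (frm c))) →
  (∀ v : DV k K, (∀ M, 0 ≤ v.ord (z M)) → v.ord (eval x (up K (frm c))) =
    -(d * poleOrder v x)) ∧
  deg k z = d * deg k x ∧
  ((∃ M, z M ∉ Set.range (algebraMap k K)) → ∃ j, x j ∉ Set.range (algebraMap k K))

/-- F: Q1 for the complement of a very general hypersurface of degree `e + 1`, `3 n ≤ 2 e`. The
exceptional set is contained in a hypersurface `Φ = 0` (`Φ` a form of degree `m d`, written as a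
form of degree `m` in the coordinates of `X`). -/
def T_FIN : Prop := ∀ n e : ℕ, 1 ≤ n → 3 * n ≤ 2 * e → ∃ C : ℕ, ∀ (k : Type) [Field k]
  [IsAlgClosed k] [CharZero k] (c : Mon (n + 1) (e + 1) → k), AlgebraicIndependent ℚ c →
  DegreeBoundOff k (eqs c) (excLine c) (fun χ => C * χ) ∧
  ∃ (Φ : MvPolynomial (Fin (n + 1)) k) (m : ℕ), Φ ≠ 0 ∧ Φ.IsHomogeneous m ∧
    ∀ (K : Type) [Field K] [Algebra k K] (x y : Fin (n + 1) → K) (p : Fin (n + 1)), x p = 1 →
      Indep x y → TwoRoots (e + 1) (up K (frm c)) x y → eval x (up K Φ) = 0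

end Pool.Agent.H17.VG
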