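import Pool.Agent.H17.VG.TargetsD
import Pool.Agent.H27.LV.Curve

/-!
# MP_70ba79_ag: local lifts (row LL of the board `vyc_modules`)
-/

set_option autoImplicit false

namespace Pool.Agent.H17.VG

open SC Pool.Agent.H27.LV

/-- an additive map with the Leibniz rule which kills `t` kills its powers -/
lemma zpow_kill {K : Type} [Field K] (f : K → K) (hmul : ∀ a b, f (a * b) = a * f b + b * f a)
    (t : K) (ht : t ≠ 0) (h : f t = 0) (m : ℤ) : f (t ^ m) = 0 := by
  have h1 : f 1 = 0 := by
    have := hmul 1 1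
    simp only [mul_one, one_mul] at this
    linear_combination -this
  have hn : ∀ n : ℕ, f (t ^ n) = 0 := by
    intro n
    induction n with
    | zero => simpa using h1
    | succ n ih => rw [pow_succ, hmul, ih, h, mul_zero, mul_zero, add_zero]
  rcases m with n | n
  · simpa using hn n
  · have h2 := hmul (t ^ (n + 1)) (t ^ (n + 1))⁻¹
    rw [mul_inv_cancel₀ (pow_ne_zero _ ht), h1, hn, mul_zero, add_zero] at h2
    rw [zpow_negSucc]
    exact (mul_eq_zero.1 h2.symm).resolve_left (pow_ne_zero _ ht)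

theorem ll (hD0 : T_D0) : T_LL := by
  intro R k K _ _ _ _ _ _ _ _ htr θ hθ D hD v z
  obtain ⟨hDπ, hord, -⟩ := dor k K htr D hD v
  obtain ⟨B, hB⟩ := hD0 R k K htr θ hθ v
  obtain ⟨l, hl⟩ : ∃ l, l = θ v.unif / D v.unif := ⟨_, rfl⟩
  obtain ⟨f, hf⟩ : ∃ f : K → K, f = fun z => θ z - l * D z := ⟨_, rfl⟩
  have hfz : ∀ z, f z = θ z - l * D z := fun z => by rw [hf]
  have hadd : ∀ a b, f (a + b) = f a + f b := by
    intro a b
    rw [hfz, hfz, hfz, map_add, map_add]
    ring
  have hmul : ∀ a b, f (a * b) = a * f b + b * f a := by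
    intro a b
    rw [hfz, hfz, hfz, θ.leibniz, D.leibniz]
    simp only [smul_eq_mul]
    ring
  have hπ : f v.unif = 0 := by
    rw [hfz, hl, div_mul_cancel₀ _ hDπ, sub_self]
  have hc : ∀ c : k, ge v 0 (f (algebraMap k K c)) := by
    intro c
    obtain ⟨b, hb⟩ := hθ c
    rw [hfz, hb, D.map_algebraMap, mul_zero, sub_zero]
    exact ge_const v b
  obtain ⟨B', hB'⟩ : ∃ B' : ℤ, ∀ z, 0 ≤ v.ord z → ge v B' (f z) := by
    refine ⟨min B (v.ord l + ordD v D), fun z hz => ?_⟩
    rw [hfz]
    refine ge.sub ((hB z hz).mono (min_le_left _ _)) ?_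
    refine (ge.mul (ge_of_ord v) (hord.1 z hz)).mono (min_le_right _ _)
  have key : ∀ N : ℕ, ∀ z, 0 ≤ v.ord z → ge v (min 0 (B' + N)) (f z) := by
    intro N
    induction N with
    | zero =>
      intro z hz
      refine (hB' z hz).mono ?_
      simp
    | succ N ih =>
      intro z hz
      obtain ⟨c, hcz⟩ := (rat k K htr v).2 z hz
      have hπ0 := v.unif_ne_zero
      have hz1 : z = algebraMap k K c + v.unif * ((z - algebraMap k K c) / v.unif) := by
        field_simp
        ring
      have hz2 : 0 ≤ v.ord ((z - algebraMap k K c) / v.unif) := by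
        rcases hcz with h | h
        · rw [h, zero_div, v.ord_zero]
        · by_cases h0 : z - algebraMap k K c = 0
          · rw [h0, zero_div, v.ord_zero]
          · rw [v.ord_div h0 hπ0, v.ord_unif]
            omega
      rw [hz1, hadd, hmul, hπ, mul_zero, add_zero]
      refine ge.add ((hc c).mono (min_le_left _ _)) ?_
      have h3 : ge v 1 v.unif := Or.inr (by rw [v.ord_unif])
      refine (ge.mul h3 (ih _ hz2)).mono ?_
      push_cast
      omega
  have key0 : ∀ z, 0 ≤ v.ord z → ge v 0 (f z) := by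
    intro z hz
    refine (key (-B').toNat z hz).mono ?_
    omega
  rw [← hl, ← hfz]
  by_cases hz0 : z = 0
  · rw [hz0, hfz, map_zero, map_zero, mul_zero, sub_zero]
    exact ge_zero v _
  · have hz1 : z = v.unif ^ (v.ord z) * (z * v.unif ^ (-(v.ord z))) := by
      rw [mul_left_comm, ← zpow_add₀ v.unif_ne_zero]
      simp
    have hz2 : v.ord (z * v.unif ^ (-(v.ord z))) = 0 := by
      rw [v.ord_mul' hz0 (v.unif_zpow_ne_zero _), v.ord_unif_zpow]
      ring
    have h4 : f z = v.unif ^ (v.ord z) * f (z * v.unif ^ (-(v.ord z))) := by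
      conv_lhs => rw [hz1]
      rw [hmul, zpow_kill f hmul v.unif v.unif_ne_zero hπ, mul_zero, add_zero]
    rw [h4]
    have h5 : ge v (v.ord z) (v.unif ^ (v.ord z)) := Or.inr (by rw [v.ord_unif_zpow])
    simpa using ge.mul h5 (key0 _ hz2.ge)

end Pool.Agent.H17.VG
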