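import Pool.Agent.H17.VG.TargetsC
import Pool.Agent.H17.VG.DD
import Pool.Agent.H17.VG.GG

/-!
# MP_70ba79_ag: one more step (row SM of the board `vyc_modules`)
-/

set_option autoImplicit false

namespace Pool.Agent.H17.VG

open MvPolynomial SC Pool.Agent.H27.LV

section

variable {R K : Type} [Field R] [Field K] [Algebra R K] {n : ℕ}

lemma opF_zero (hOP : T_OP) (G : MvPolynomial (Fin (n + 1)) K) : opF (0 : Op R K n) G = 0 := by
  have h := (hOP R K n 0 (0 : Op R K n) 0 G G 0 0 0).2.2.1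
  simpa using h

lemma opV_zero (hOP : T_OP) (z : Fin (n + 1) → K) : opV (0 : Op R K n) z = 0 := by
  have h := (hOP R K n 0 (0 : Op R K n) 0 0 0 0 0 z).2.2.2.1
  simpa using h

/-- the symbols of the operators with velocity in `U` -/
noncomputable def sy (hOP : T_OP) (F : MvPolynomial (Fin (n + 1)) K) (x : Fin (n + 1) → K)
    (U : Submodule K (Fin (n + 1) → K)) : Submodule K (MvPolynomial (Fin (n + 1)) K) where
  carrier := {G | ∃ τ : Op R K n, opF τ F = G ∧ opV τ x ∈ U}
  zero_mem' := ⟨0, opF_zero hOP F, by rw [opV_zero hOP]; exact zero_mem _⟩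
  add_mem' := by
    rintro G G' ⟨τ, h1, h2⟩ ⟨τ', h3, h4⟩
    refine ⟨τ + τ', ?_, ?_⟩
    · have h := (hOP R K n 0 τ τ' F F 1 1 0).2.2.1
      rw [one_smul, one_smul, C_1, one_mul, one_mul] at h
      rw [h, h1, h3]
    · have h := (hOP R K n 0 τ τ' F F 1 1 x).2.2.2.1
      rw [one_smul, one_smul, one_smul, one_smul] at h
      rw [h]
      exact add_mem h2 h4
  smul_mem' := by
    rintro a G ⟨τ, h1, h2⟩
    refine ⟨a • τ, ?_, ?_⟩
    · have h := (hOP R K n 0 τ τ F F a 0 0).2.2.1
      rw [zero_smul, add_zero, C_0, zero_mul, add_zero] at h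
      rw [h, h1, MvPolynomial.smul_eq_C_mul]
    · have h := (hOP R K n 0 τ τ F F a 0 x).2.2.2.1
      rw [zero_smul, add_zero, zero_smul, add_zero] at h
      rw [h]
      exact Submodule.smul_mem _ _ h2

lemma Dx_mem (F : MvPolynomial (Fin (n + 1)) K) (D : Derivation R K K) (x : Fin (n + 1) → K)
    (hF : cD D F = 0) (W : Submodule K (MvPolynomial (Fin (n + 1)) K)) :
    (fun i => D (x i)) ∈ Ut R F x W := by
  refine Submodule.subset_span (Or.inl ⟨((D, 0) : Op R K n), ?_, ?_⟩)
  · have h0 : opF ((D, 0) : Op R K n) F = 0 := by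
      unfold opF
      simp [hF]
    rw [h0]
    exact zero_mem _
  · funext i
    simp [opV]

lemma x_mem (F : MvPolynomial (Fin (n + 1)) K) (x : Fin (n + 1) → K)
    (W : Submodule K (MvPolynomial (Fin (n + 1)) K)) : x ∈ Ut R F x W :=
  Submodule.subset_span (Or.inr rfl)

end

theorem sm (hTP : T_TP) (hOP : T_OP) (hWD : T_WD) : T_SM := by
  intro R k K _ _ _ _ _ _ n e s F D x hsys hF Q hfin
  by_contra hcon
  push Not at hcon
  obtain ⟨U, hU⟩ : ∃ U, U = Ut R F x (PQ x fun j => up K (frm (Q j))) := ⟨_, rfl⟩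
  rw [← hU] at hfin hcon
  have hDx : (fun i => D (x i)) ∈ U := hU ▸ Dx_mem F D x hsys.base _
  have hx : x ∈ U := hU ▸ x_mem F x _
  -- generators
  have hgen : ∀ (ξ : Fin (n + 1) → K) (M : Mon (n + 1) e), ∑ i, ξ i * x i = 0 →
      lin ξ * mono K M.1 ∈ sy (R := R) hOP F x U := by
    intro ξ M hξ
    obtain ⟨τ, hτ⟩ := hsys.surj (lin ξ * mono K M.1) (by
      have := (isHomogeneous_lin ξ).mul (isHomogeneous_mono (K := K) M)
      rw [Nat.add_comm e 1]
      exact this)
    classical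
    refine ⟨τ, hτ, hcon (Pi.single M 1) ξ τ hξ ?_⟩
    rw [hτ, up_frm]
    congr 1
    unfold frm
    rw [Finset.sum_eq_single M]
    · simp
    · intro M' _ hM'
      simp only []
      rw [Pi.single_eq_of_ne hM', map_zero, map_zero, zero_mul]
    · intro h
      exact absurd (Finset.mem_univ _) h
  have hspan : Submodule.span K {G | ∃ (ξ : Fin (n + 1) → K) (q : Mon (n + 1) e → K),
      ∑ i, ξ i * x i = 0 ∧ G = lin ξ * frm q} ≤ sy (R := R) hOP F x U := by
    rw [Submodule.span_le]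
    rintro G ⟨ξ, q, hξ, rfl⟩
    unfold frm
    rw [Finset.mul_sum]
    refine Submodule.sum_mem _ fun M _ => ?_
    have h1 : lin ξ * (C (q M) * mono K M.1) = q M • (lin ξ * mono K M.1) := by
      rw [MvPolynomial.smul_eq_C_mul]
      ring
    rw [h1]
    exact Submodule.smul_mem _ _ (hgen ξ M hξ)
  have htop := hTP R K n e F D x hsys hF
  have hle : (⊤ : Submodule K (Fin (n + 1) → K)) ≤ U := by
    rw [← htop]
    unfold Ut
    rw [Submodule.span_le]
    rintro w (⟨τ, h1, rfl⟩ | h)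
    · obtain ⟨τ', h2, h3⟩ := hspan h1
      obtain ⟨c, hc⟩ := hWD R K n (e + 1) F D hsys τ τ' h2.symm
      rw [hc x]
      exact add_mem h3 (Submodule.smul_mem _ _ hDx)
    · rw [Set.mem_singleton_iff.1 h]
      exact hx
  have h1 : Module.finrank K U = n + 1 := by
    rw [top_le_iff.1 hle]
    simp
  omega

end Pool.Agent.H17.VG
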