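import Pool.Agent.H17.VG.AL
import Pool.Agent.H17.VG.FIN
import Pool.Agent.H17.VG.DD
import Pool.Agent.H17.VG.LL
import Pool.Agent.H17.VG.GG
import Pool.Agent.H17.VG.SM
import Pool.Agent.H66.VG.PS
import Pool.Agent.H97.VG.BI
import Pool.Agent.H97.VG.BR
import Pool.Agent.H92.VG.BS
import Pool.Agent.H92.VG.CC
import Pool.Agent.H97.VG.CD
import Pool.Agent.H30.VG.D0
import Pool.Agent.H92.VG.DA
import Pool.Agent.H97.VG.EV
import Pool.Agent.H52.VG.DG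
import Pool.Agent.H64.VG.DX
import Pool.Agent.H86.VG.ET
import Pool.Agent.H64.VG.FD
import Pool.Agent.H64.VG.FE
import Pool.Agent.H66.VG.G1
import Pool.Agent.H86.VG.G2
import Pool.Agent.H92.VG.GR
import Pool.Agent.H77.VG.HP
import Pool.Agent.H52.VG.IL
import Pool.Agent.H66.VG.IM
import Pool.Agent.H77.VG.IP
import Pool.Agent.H97.VG.KY
import Pool.Agent.H51.VG.KD
import Pool.Agent.H86.VG.KP
import Pool.Agent.H52.VG.LF
import Pool.Agent.H97.VG.NA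
import Pool.Agent.H97.VG.OP
import Pool.Agent.H97.VG.PD
import Pool.Agent.H66.VG.RL
import Pool.Agent.H52.VG.RO
import Pool.Agent.H52.VG.RS
import Pool.Agent.H66.VG.SO
import Pool.Agent.H90.VG.ST
import Pool.Agent.H52.VG.SU
import Pool.Agent.H92.VG.SU2
import Pool.Agent.H66.VG.TP
import Pool.Agent.H92.VG.VD
import Pool.Agent.H66.VG.VE
import Pool.Agent.H30.VGH.CDP
import Pool.Agent.H33.VGH.DEX
import Pool.Agent.H1.VGH.DG3
import Pool.Agent.H19.VGH.ELI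
import Pool.Agent.H30.VGH.GLU
import Pool.Agent.H22.VGH.JQN
import Pool.Agent.H30.VGH.LIN
import Pool.Agent.H22.VGH.MLO
import Pool.Agent.H34.VGH.MM
import Pool.Agent.H34.VGH.MSM
import Pool.Agent.H22.VGH.PMA
import Pool.Agent.H65.VGH.RAD
import Pool.Agent.H65.VGH.MM1
import Pool.Agent.H90.VG.NB
import Pool.Agent.H90.VG.DB
import Pool.Agent.H27.LV.All
import Pool.Agent.H17.VG.PSI
import Pool.Agent.H22.VGH.RIC
import Pool.Agent.H30.VGH.SYL
import Pool.Agent.H22.VGH.TWI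
import Pool.Agent.H19.VGH.XDM
import Pool.Agent.H19.VGH.XDR
import Pool.Agent.H30.VGH.XFN

/-!
# MP_70ba79_ag: complements of very general hypersurfaces, assembly of all modules
-/

set_option autoImplicit false

namespace Pool.Agent.H17.VG

/-- the main theorem, all modules of the boards `vyc_modules` and `vgh_modules` together -/
theorem fin_all : T_FIN := by
  have hOP : T_OP := Pool.Agent.H97.VG.op
  have hWD : T_WD := Pool.Agent.H97.VG.wd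
  have hRS : T_RS := Pool.Agent.H52.VG.rs
  have hRO : T_RO := Pool.Agent.H52.VG.ro
  have hIL : T_IL := Pool.Agent.H52.VG.il
  have hSU : T_SU := Pool.Agent.H52.VG.su
  have hLF : T_LF := Pool.Agent.H52.VG.lf
  have hDG : T_DG := Pool.Agent.H52.VG.dg
  have hJY : T_JY := Pool.Agent.H97.VG.jy hRS hLF
  have hKY : T_KY := Pool.Agent.H97.VG.ky hRS
  have hIM : T_IM := Pool.Agent.H66.VG.im hOP hRS hRO hLF
  have hIQ : T_IQ := Pool.Agent.H66.VG.iq hOP hRO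
  have hPS : T_PS := Pool.Agent.H66.VG.ps hOP hRS hRO hIL hSU
  have hET : T_ET := Pool.Agent.H17.VG.ET hRS hKY hPS hIM
  have hRL : T_RL := Pool.Agent.H66.VG.rl hRS Pool.Agent.H97.VG.re Pool.Agent.H97.VG.dc hET hPS
    hIQ hJY hLF
  have hB : T_B := Pool.Agent.H66.VG.bb hRS hJY hRL hDG hPS
  have hC : T_C := Pool.Agent.H92.VG.pf_CC
  have hTP : T_TP := Pool.Agent.H66.VG.tp Pool.Agent.H77.VG.ip hSU hOP
  have hST : T_ST := Pool.Agent.H90.VG.st hB hC KP Pool.Agent.H97.VG.bi hTP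
  have hSM : T_SM := sm hTP hOP hWD
  have hLL : T_LL := ll Pool.Agent.H30.VG.d0
  have hDA : T_DA := Pool.Agent.H92.VG.pf_DA hLL
  have hDB : T_DB := Pool.Agent.H90.VG.db hLL Pool.Agent.H92.VG.pf_GR Pool.Agent.H97.VG.ev
  have hD : T_D := dd hDA hDB Pool.Agent.H92.VG.pf_SU2 Pool.Agent.H97.VG.na
    (Pool.Agent.H90.VG.nb hOP hWD) hWD hOP
  have hG1 : T_G1 := Pool.Agent.H66.VG.g1
  have hG2 : T_G2 := G2 hG1
  have hSO : T_SO := Pool.Agent.H66.VG.so hG2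
  have hG : T_G := gg Pool.Agent.H64.VG.fd (Pool.Agent.H64.VG.dx hG1) Pool.Agent.H51.VG.kd
    (Pool.Agent.H92.VG.pf_BS Pool.Agent.H64.VG.fe) Pool.Agent.H97.VG.cd hOP
  have hAL : T_AL := al hST hSM hD hG hSO
  have hLED := Pool.Agent.H22.VGH.pf_LED
  have hCDP := Pool.Agent.H30.VGH.pf_CDP
  have hMM1 : Pool.Agent.H30.VGH.T_MM1 := Pool.Agent.H65.VGH.pf_MM1 Pool.Agent.H30.VGH.pf_SYL hCDP
    (Pool.Agent.H22.VGH.pf_MLO Pool.Agent.H22.VGH.pf_EVA hLED hCDP)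
    (Pool.Agent.H34.VGH.pf_MSM Pool.Agent.H27.LV.pfm Pool.Agent.H27.LV.tDFI)
    (Pool.Agent.H1.VGH.pf_DG3 hLED) (Pool.Agent.H1.VGH.pf_RTB hLED)
    (Pool.Agent.H22.VGH.pf_RIC hCDP) Pool.Agent.H22.VGH.pf_JQN Pool.Agent.H22.VGH.pf_JQB
    Pool.Agent.H27.LV.dor Pool.Agent.H27.LV.ker
  have hMM : Pool.Agent.H30.VGH.T_MM := Pool.Agent.H34.VGH.pf_MM Pool.Agent.H27.LV.pfm hMM1
    Pool.Agent.H22.VGH.pf_GAU Pool.Agent.H22.VGH.pf_EVA Pool.Agent.H65.VGH.pf_RAD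
  have hE : T_E := Pool.Agent.H30.VGH.gle (Pool.Agent.H30.VGH.pf_LIN hMM
    Pool.Agent.H22.VGH.pf_TWI Pool.Agent.H65.VGH.pf_TWP)
  have hX : T_X := Pool.Agent.H30.VGH.glx (Pool.Agent.H30.VGH.pf_XFN Pool.Agent.H19.VGH.pf_ELI
    Pool.Agent.H19.VGH.pf_XDM (Pool.Agent.H19.VGH.pf_XDR Pool.Agent.H33.VGH.pf_DEX))
  exact fin (mn hAL hE) Pool.Agent.H66.VG.ve Pool.Agent.H92.VG.pf_VD hX

end Pool.Agent.H17.VG
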