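import Pool.Agent.H27.LV.Targets3

/-!
# MP_70ba79_ag: complements of very general hypersurfaces

Common definitions of the modules of the board `vyc_modules`. `F` is a form of degree `e + 1` in
`n + 1` variables over `K`, `D` a derivation of `K` which vanishes on the coefficients of `F`.
An operator `τ = (θ, A)` is a derivation `θ` of `K` over a small field `R` together with an
infinitesimal linear change of coordinates `A`.
-/

set_option autoImplicit false

namespace Pool.Agent.H17.VG

open MvPolynomial SC Pool.Agent.H27.LV

section Op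

variable {R K : Type} [Field R] [Field K] [Algebra R K] {n : ℕ}

/-- a derivation applied to the coefficients -/
noncomputable def cD (θ : Derivation R K K) (G : MvPolynomial (Fin (n + 1)) K) :
    MvPolynomial (Fin (n + 1)) K := ∑ m ∈ G.support, monomial m (θ (coeff m G))

/-- a derivation applied to the coefficients of a polynomial in one variable -/
noncomputable def pD (θ : Derivation R K K) (P : Polynomial K) : Polynomial K :=
  ∑ m ∈ P.support, Polynomial.monomial m (θ (P.coeff m))

/-- the derivative in the direction `w` -/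
noncomputable def dir (w : Fin (n + 1) → K) (G : MvPolynomial (Fin (n + 1)) K) :
    MvPolynomial (Fin (n + 1)) K := ∑ i, C (w i) * pderiv i G

/-- operators: a derivation of `K` and an infinitesimal linear change of coordinates -/
abbrev Op (R K : Type) [Field R] [Field K] [Algebra R K] (n : ℕ) : Type :=
  Derivation R K K × Matrix (Fin (n + 1)) (Fin (n + 1)) K

/-- action of an operator on polynomials -/
noncomputable def opF (τ : Op R K n) (G : MvPolynomial (Fin (n + 1)) K) :
    MvPolynomial (Fin (n + 1)) K := cD τ.1 G + ∑ i, (∑ j, C (τ.2 i j) * X j) * pderiv i G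

/-- action of an operator on vectors -/
def opV (τ : Op R K n) (z : Fin (n + 1) → K) : Fin (n + 1) → K :=
  fun i => τ.1 (z i) - ∑ j, τ.2 i j * z j

/-- bracket of operators -/
noncomputable def brk (τ τ' : Op R K n) : Op R K n :=
  (⁅τ.1, τ'.1⁆, Matrix.of fun i j => τ.1 (τ'.2 i j) - τ'.1 (τ.2 i j) +
    (∑ l, τ'.2 i l * τ.2 l j - ∑ l, τ.2 i l * τ'.2 l j))

/-- restriction of a form to the line through `x` and `y`: `G (x + T y)` -/
noncomputable def res (x y : Fin (n + 1) → K) (G : MvPolynomial (Fin (n + 1)) K) :
    Polynomial K := aeval (fun i => Polynomial.C (x i) + Polynomial.C (y i) * Polynomial.X) G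

/-- `F` with its operators: all forms of degree `d` are symbols `opF τ F`, and the only operators
with symbol zero are the multiples of `(D, 0)` -/
structure Sys (d : ℕ) (F : MvPolynomial (Fin (n + 1)) K) (D : Derivation R K K) : Prop where
  homog : F.IsHomogeneous d
  base : cD D F = 0
  surj : ∀ G : MvPolynomial (Fin (n + 1)) K, G.IsHomogeneous d → ∃ τ : Op R K n, opF τ F = G
  ker : ∀ τ : Op R K n, opF τ F = 0 → τ.2 = 0 ∧ ∃ c : K, τ.1 = c • D

/-- velocities `opV τ x` of the operators with symbol in `W`, and `x` itself -/
noncomputable def Ut (R : Type) [Field R] [Algebra R K] (F : MvPolynomial (Fin (n + 1)) K)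
    (x : Fin (n + 1) → K) (W : Submodule K (MvPolynomial (Fin (n + 1)) K)) :
    Submodule K (Fin (n + 1) → K) :=
  Submodule.span K ({w | ∃ τ : Op R K n, opF τ F ∈ W ∧ w = opV τ x} ∪ {x})

/-- forms of degree `e + 1` in the ideal of the line through `x` and `y` -/
noncomputable def Il (e : ℕ) (x y : Fin (n + 1) → K) :
    Submodule K (MvPolynomial (Fin (n + 1)) K) :=
  Submodule.span K {G | ∃ (ξ : Fin (n + 1) → K) (Q : MvPolynomial (Fin (n + 1)) K),
    ∑ i, ξ i * x i = 0 ∧ ∑ i, ξ i * y i = 0 ∧ Q.IsHomogeneous e ∧ G = lin ξ * Q}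

/-- products of the forms `Q j` and the linear forms which vanish at `x` -/
noncomputable def PQ {ι : Type} (x : Fin (n + 1) → K) (Q : ι → MvPolynomial (Fin (n + 1)) K) :
    Submodule K (MvPolynomial (Fin (n + 1)) K) :=
  Submodule.span K {G | ∃ (ξ : Fin (n + 1) → K) (j : ι), ∑ i, ξ i * x i = 0 ∧ G = lin ξ * Q j}

/-- the restriction of `F` to the line through `x` and `y` has at most two different zeros:
`F (x + T y) = F (x) (1 + α T) ^ a (1 + β T) ^ b`, `a + b = d` -/
def TwoRoots (d : ℕ) (F : MvPolynomial (Fin (n + 1)) K) (x y : Fin (n + 1) → K) : Prop :=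
  ∃ (α β : AlgebraicClosure K) (a b : ℕ), a + b = d ∧
    (res x y F).map (algebraMap K (AlgebraicClosure K)) =
      Polynomial.C (algebraMap K (AlgebraicClosure K) (eval x F)) *
        (1 + Polynomial.C α * Polynomial.X) ^ a * (1 + Polynomial.C β * Polynomial.X) ^ b

/-- the line through `x` and `y` is a line -/
def Indep (x y : Fin (n + 1) → K) : Prop := LinearIndependent K ![x, y]

end Op

section Rational

variable {R k K : Type} [Field R] [Field k] [Field K] [Algebra k K] [Algebra R K] {n : ℕ}

/-- operators with constant coefficients -/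
def RatOp (k : Type) [Field k] [Algebra k K] (τ : Op R K n) : Prop :=
  (∀ a : k, ∃ b : k, τ.1 (algebraMap k K a) = algebraMap k K b) ∧
  ∀ i j, ∃ b : k, τ.2 i j = algebraMap k K b

/-- constant forms as forms over `K` -/
noncomputable def up (K : Type) [Field K] [Algebra k K] (G : MvPolynomial (Fin (n + 1)) k) :
    MvPolynomial (Fin (n + 1)) K := MvPolynomial.map (algebraMap k K) G

/-- The matrix of the height inequality. Rows: coordinates, and one row for each of the forms
`Q j`. Columns: for each `c` an operator `τ c` with symbol `X_(i c) Q_(j c)`, then the derivative of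
`x`, then `x`. -/
noncomputable def bigM {ι : Type} {s : ℕ} (D : Derivation k K K) (x : Fin (n + 1) → K)
    (τ : ι → Op R K n) (i : ι → Fin (n + 1)) (j : ι → Fin s) :
    Matrix (Fin (n + 1) ⊕ Fin s) (ι ⊕ Fin 2) K :=
  Matrix.of fun r c => match r, c with
    | Sum.inl a, Sum.inl c => opV (τ c) x a
    | Sum.inr b, Sum.inl c => if j c = b then x (i c) else 0
    | Sum.inl a, Sum.inr t => if t = 0 then D (x a) else x a
    | Sum.inr _, Sum.inr _ => 0

/-- height of the line through `x` and `y` (degree of its Plücker coordinates) -/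
noncomputable def hln (k : Type) [Field k] [Algebra k K] (x y : Fin (n + 1) → K) (a b : Fin (n + 1)) :
    ℕ := deg k (fun ij : Fin (n + 1) × Fin (n + 1) =>
      (x ij.1 * y ij.2 - x ij.2 * y ij.1) / (x a * y b - x b * y a))

end Rational

end Pool.Agent.H17.VG
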