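import Mathlib
import Pool.Agent.H95.VG.Targets5

/-!
# VG module MRI: from manifolds to bare hands
-/

open MeasureTheory Set Filter Topology
open scoped ENNReal NNReal ContDiff Manifold ComplexConjugate

namespace Pool.Agent.H17.VG

open Pool.Agent.H95.VG

/-- first half of the coordinates -/
def fstc (n : ℕ) (Z : V (n + n)) : V n := fun i => Z (Fin.castAdd n i)

/-- second half of the coordinates -/
def sndc (n : ℕ) (Z : V (n + n)) : V n := fun i => Z (Fin.natAdd n i)

theorem fstc_append {n : ℕ} (z y : V n) : fstc n (Fin.append z y) = z := by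
  funext i; exact Fin.append_left z y i

theorem sndc_append {n : ℕ} (z y : V n) : sndc n (Fin.append z y) = y := by
  funext i; exact Fin.append_right z y i

theorem append_fs {n : ℕ} (Z : V (n + n)) : Fin.append (fstc n Z) (sndc n Z) = Z := by
  funext i
  refine Fin.addCases (fun j => ?_) (fun j => ?_) i
  · exact Fin.append_left _ _ j
  · exact Fin.append_right _ _ j

theorem diff_fstc (n : ℕ) : Differentiable ℂ (fstc n) := by
  unfold fstc
  fun_prop

theorem diff_sndc (n : ℕ) : Differentiable ℂ (sndc n) := by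
  unfold sndc
  fun_prop

theorem fstc_dist {n : ℕ} (Z P : V (n + n)) : dist (fstc n Z) (fstc n P) ≤ dist Z P := by
  refine (dist_pi_le_iff dist_nonneg).2 fun i => ?_
  exact dist_le_pi_dist Z P (Fin.castAdd n i)

theorem sndc_dist {n : ℕ} (Z P : V (n + n)) : dist (sndc n Z) (sndc n P) ≤ dist Z P := by
  refine (dist_pi_le_iff dist_nonneg).2 fun i => ?_
  exact dist_le_pi_dist Z P (Fin.natAdd n i)

theorem mri : T_MRI := by
  intro n X _ _ _ _ _ ι A D I Γ f hA hM
  have hopn := hM.opn
  refine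
    { opn := hopn
      sub := hM.ind.1
      ian := ?_
      thin := hM.thin
      cont := hM.hol.continuousOn
      hol := ?_
      loc := ?_ }
  · intro z₀ hz₀
    obtain ⟨W, hW, hzW, hWD, m, g, hg, hgz⟩ := hM.ind.2 z₀ hz₀
    obtain ⟨r, hr, hrW⟩ := Metric.isOpen_iff.1 hW z₀ hzW
    refine ⟨r, hr, hrW.trans hWD, m, fun z i => g i z, ?_, ?_⟩
    · rw [differentiableOn_pi]
      intro i
      exact (mdifferentiableOn_iff_differentiableOn.1 (hg i)).mono hrW
    · intro z hz
      rw [hgz z (hrW hz)]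
      constructor
      · intro h; funext i; exact h i
      · intro h i; exact congrFun h i
  · intro a
    have h1 := (hA a).1
    have h2 : MDifferentiableOn 𝓘(ℂ, Fin n → ℂ) 𝓘(ℂ, Fin n → ℂ) (fun z => A.φ a (f z))
        {z | z ∈ D \ I ∧ f z ∈ (A.φ a).source} :=
      h1.comp (hM.hol.mono (fun z hz => hz.1)) (fun z hz => hz.2)
    exact mdifferentiableOn_iff_differentiableOn.1 h2
  · intro a z₀ hz₀ y₀ hy₀
    set P : V (n + n) := Fin.append z₀ y₀ with hP
    have hfP : fstc n P = z₀ := fstc_append z₀ y₀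
    have hsP : sndc n P = y₀ := sndc_append z₀ y₀
    have hy₀' : ‖y₀‖ ≤ 5 / 2 := by simpa using hy₀
    have hy₀t : y₀ ∈ (A.φ a).target := A.ball a (by
      simp only [Metric.mem_closedBall, dist_zero_right]; linarith)
    set Ψ : V (n + n) → V n × X := fun Z => (fstc n Z, (A.φ a).symm (sndc n Z)) with hΨ
    set O : Set (V (n + n)) := {Z | sndc n Z ∈ (A.φ a).target} with hO
    have hOo : IsOpen O := (A.φ a).open_target.preimage (diff_sndc n).continuous
    have hΨd : MDifferentiableOn 𝓘(ℂ, V (n + n)) (𝓘(ℂ, Fin n → ℂ).prod 𝓘(ℂ, Fin n → ℂ)) Ψ O := by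
      refine MDifferentiableOn.prodMk ?_ ?_
      · exact mdifferentiableOn_iff_differentiableOn.2 (diff_fstc n).differentiableOn
      · refine (hA a).2.comp
          (mdifferentiableOn_iff_differentiableOn.2 (diff_sndc n).differentiableOn) ?_
        intro Z hZ
        exact hZ
    have hΨc : ContinuousOn Ψ O := hΨd.continuousOn
    have hPO : P ∈ O := by
      show sndc n P ∈ (A.φ a).target
      rw [hsP]; exact hy₀t
    set p : V n × X := (z₀, (A.φ a).symm y₀) with hp
    have hΨP : Ψ P = p := by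
      show (fstc n P, (A.φ a).symm (sndc n P)) = p
      rw [hfP, hsP]
    have hcomp : ∀ (W : Set (V n × X)) (u : V n × X → ℂ),
        MDifferentiableOn (𝓘(ℂ, Fin n → ℂ).prod 𝓘(ℂ, Fin n → ℂ)) 𝓘(ℂ, ℂ) u W →
        DifferentiableOn ℂ (fun Z => u (Ψ Z)) (O ∩ Ψ ⁻¹' W) := by
      intro W u hu
      have h3 : MDifferentiableOn 𝓘(ℂ, V (n + n)) 𝓘(ℂ, ℂ) (fun Z => u (Ψ Z)) (O ∩ Ψ ⁻¹' W) :=
        hu.comp (hΨd.mono inter_subset_left) (fun Z hZ => hZ.2)
      exact mdifferentiableOn_iff_differentiableOn.1 h3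
    obtain ⟨W, hW, hpW, hWD, m, g, hg, hgz⟩ := hM.graph.2 p ⟨hz₀, mem_univ _⟩
    have hN1 : IsOpen (O ∩ Ψ ⁻¹' W) := hΨc.isOpen_inter_preimage hOo hW
    have hPN1 : P ∈ O ∩ Ψ ⁻¹' W := ⟨hPO, by show Ψ P ∈ W; rw [hΨP]; exact hpW⟩
    have hinj : ∀ Z ∈ O, Ψ Z = p → Z = P := by
      intro Z hZ h
      have h1 : fstc n Z = z₀ := congrArg Prod.fst h
      have h2 : (A.φ a).symm (sndc n Z) = (A.φ a).symm y₀ := congrArg Prod.snd h
      have h3 : sndc n Z = y₀ := (A.φ a).symm.injOn (by simpa [hO] using hZ) (by simpa using hy₀t) h2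
      rw [← append_fs Z, h1, h3]
    have hΓ : ∀ Z ∈ O ∩ Ψ ⁻¹' W, ((fun i => g i (Ψ Z)) = 0 ↔ Ψ Z ∈ Γ) := by
      intro Z hZ
      rw [hgz _ hZ.2]
      constructor
      · intro h i; exact congrFun h i
      · intro h; funext i; exact h i
    -- the functions `l` on a neighbourhood
    obtain ⟨N, hN, hPN, hNs, l, hl, hlP, hliso⟩ : ∃ N : Set (V (n + n)), IsOpen N ∧ P ∈ N ∧
        N ⊆ O ∩ Ψ ⁻¹' W ∧ ∃ l : V (n + n) → V n, DifferentiableOn ℂ l N ∧ l P = 0 ∧
          ∀ Z ∈ N, (fun i => g i (Ψ Z)) = 0 → l Z = 0 → Z = P := by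
      by_cases hpΓ : p ∈ Γ
      · obtain ⟨W', hW', hpW', l, hl, hlp, hli⟩ := hM.dim p hpΓ
        refine ⟨(O ∩ Ψ ⁻¹' W) ∩ (O ∩ Ψ ⁻¹' W'), hN1.inter (hΨc.isOpen_inter_preimage hOo hW'),
          ⟨hPN1, hPO, by show Ψ P ∈ W'; rw [hΨP]; exact hpW'⟩, inter_subset_left,
          fun Z i => l i (Ψ Z), ?_, ?_, ?_⟩
        · rw [differentiableOn_pi]
          intro i
          exact (hcomp W' (l i) (hl i)).mono inter_subset_right
        · funext i
          show l i (Ψ P) = 0
          rw [hΨP]; exact hlp i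
        · intro Z hZ h1 h2
          refine hinj Z hZ.1.1 (hli (Ψ Z) ⟨(hΓ Z hZ.1).1 h1, hZ.2.2⟩ (fun i => ?_))
          exact congrFun h2 i
      · have hne : ∃ i, g i p ≠ 0 := by
          by_contra hcon
          push Not at hcon
          exact hpΓ ((hgz p hpW).2 hcon)
        obtain ⟨i, hi⟩ := hne
        have hcont : ContinuousOn (fun Z => g i (Ψ Z)) (O ∩ Ψ ⁻¹' W) :=
          (hcomp W (g i) (hg i)).continuousOn
        refine ⟨(O ∩ Ψ ⁻¹' W) ∩ (fun Z => g i (Ψ Z)) ⁻¹' {0}ᶜ,
          hcont.isOpen_inter_preimage hN1 isOpen_compl_singleton, ⟨hPN1, ?_⟩, inter_subset_left,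
          fun _ => 0, differentiableOn_const 0, rfl, ?_⟩
        · show g i (Ψ P) ≠ 0
          rw [hΨP]; exact hi
        · intro Z hZ h1 _
          exact absurd (congrFun h1 i) hZ.2
    have hN2 : IsOpen (N ∩ (fstc n) ⁻¹' D) := hN.inter (hopn.preimage (diff_fstc n).continuous)
    obtain ⟨r₀, hr₀, hr₀N⟩ := Metric.isOpen_iff.1 hN2 P ⟨hPN, by
      show fstc n P ∈ D; rw [hfP]; exact hz₀⟩
    set r : ℝ := min r₀ (1 / 4) with hr
    have hrpos : 0 < r := lt_min hr₀ (by norm_num)
    have hrN : Metric.ball P r ⊆ N ∩ (fstc n) ⁻¹' D :=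
      (Metric.ball_subset_ball (min_le_left _ _)).trans hr₀N
    refine ⟨r, m, fun Z i => g i (Ψ Z), l, ?_⟩
    refine
      { rpos := hrpos
        rle := min_le_right _ _
        dom := ?_
        ghol := ?_
        lhol := hl.mono (hrN.trans inter_subset_left)
        l0 := hlP
        iso := fun Z hZ h1 h2 => hliso Z (hrN hZ).1 h1 h2
        gr := ?_ }
    · intro z y hzy
      refine ⟨?_, ?_⟩
      · have := (hrN hzy).2
        simpa [fstc_append] using this
      · have h1 := sndc_dist (Fin.append z y) P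
        rw [sndc_append, hsP] at h1
        have h2 : dist (Fin.append z y) P < r := hzy
        have h3 : r ≤ 1 / 4 := min_le_right _ _
        simp only [Metric.mem_ball, dist_zero_right]
        calc ‖y‖ ≤ ‖y - y₀‖ + ‖y₀‖ := by
              have := norm_add_le (y - y₀) y₀
              simpa using this
          _ = dist y y₀ + ‖y₀‖ := by rw [dist_eq_norm]
          _ < 3 := by linarith
    · rw [differentiableOn_pi]
      intro i
      exact (hcomp W (g i) (hg i)).mono (hrN.trans (inter_subset_left.trans hNs))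
    · intro z y hzy hzI
      have hZ := hrN hzy
      have hZ1 := hNs hZ.1
      rw [hΓ _ hZ1]
      have hzD : z ∈ D := by
        have := hZ.2
        simpa [fstc_append] using this
      have hyt : y ∈ (A.φ a).target := by
        have := hZ1.1
        simpa [hO, sndc_append] using this
      have hΨe : Ψ (Fin.append z y) = (z, (A.φ a).symm y) := by
        show (fstc n _, (A.φ a).symm (sndc n _)) = _
        rw [fstc_append, sndc_append]
      rw [hΨe, hM.graph_eq z ⟨hzD, hzI⟩]
      constructor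
      · intro h
        refine ⟨?_, ?_⟩
        · rw [← h]; exact (A.φ a).map_target hyt
        · rw [← h]; exact (A.φ a).right_inv hyt
      · rintro ⟨h1, h2⟩
        rw [← h2]; exact (A.φ a).left_inv h1

end Pool.Agent.H17.VG
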