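import Mathlib
import Pool.Agent.H95.VG.Targets5
import Pool.Agent.H67.VG.WGS
import Pool.Agent.H15.VG.Calc

/-!
# VG module S2M: cutoffs over compact sets
-/

open MeasureTheory Set Filter Topology
open scoped ENNReal NNReal ContDiff Manifold ComplexConjugate

namespace Pool.Agent.H17.VG

open Pool.Agent.H95.VG

variable {n : ℕ}

/-- partition of unity near a compact set -/
theorem pou' {ι : Type*} [Fintype ι] {K : Set (V n)} (hK : IsCompact K) (U : ι → Set (V n))
    (hU : ∀ i, IsOpen (U i)) (hKU : K ⊆ ⋃ i, U i) : ∃ ψ : ι → V n → ℝ,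
      (∀ i, ContDiff ℝ ∞ (ψ i)) ∧ (∀ i, HasCompactSupport (ψ i)) ∧ (∀ i, tsupport (ψ i) ⊆ U i) ∧
      (∀ i x, 0 ≤ ψ i x ∧ ψ i x ≤ 1) ∧ (∀ x, ∑ i, ψ i x ≤ 1) ∧
      ∃ W, IsOpen W ∧ K ⊆ W ∧ ∀ x ∈ W, ∑ i, ψ i x = 1 := by
  obtain ⟨C, hC, hKC, hCU⟩ := exists_compact_between hK (isOpen_iUnion hU) hKU
  obtain ⟨f, hf⟩ := SmoothPartitionOfUnity.exists_isSubordinate 𝓘(ℝ, V n) hC.isClosed U hU hCU
  obtain ⟨p, hp, hpc, hps, ⟨W, hW, hKW, hW1⟩, hp01⟩ := H67.VG.cutoff hK isOpen_interior hKC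
  refine ⟨fun i x => p x * f i x, ?_, ?_, ?_, ?_, ?_, W ∩ interior C, hW.inter isOpen_interior,
    subset_inter hKW hKC, ?_⟩
  · intro i
    exact hp.mul (f i).contMDiff.contDiff
  · intro i
    exact hpc.mul_right
  · intro i
    exact (tsupport_mul_subset_right).trans (hf i)
  · intro i x
    exact ⟨mul_nonneg (hp01 x).1 (f.nonneg i x),
      mul_le_one₀ (hp01 x).2 (f.nonneg i x) (f.le_one i x)⟩
  · intro x
    have h1 := f.sum_le_one x
    rw [finsum_eq_sum_of_fintype] at h1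
    rw [← Finset.mul_sum]
    have h2 : 0 ≤ ∑ i, f i x := Finset.sum_nonneg fun i _ => f.nonneg i x
    exact mul_le_one₀ (hp01 x).2 h2 h1
  · intro x hx
    have h1 := f.sum_eq_one (interior_subset hx.2)
    rw [finsum_eq_sum_of_fintype] at h1
    rw [← Finset.mul_sum, h1, hW1 x hx.1, mul_one]

theorem dr_norm_le (g : V n → ℝ) (z v : V n) : ‖dr g z v‖ ≤ ‖fderiv ℝ g z‖ * ‖v‖ := by
  unfold dr
  have h1 : ‖fderiv ℝ g z v‖ ≤ ‖fderiv ℝ g z‖ * ‖v‖ := (fderiv ℝ g z).le_opNorm v
  have h2 : ‖fderiv ℝ g z (Complex.I • v)‖ ≤ ‖fderiv ℝ g z‖ * ‖v‖ := by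
    have := (fderiv ℝ g z).le_opNorm (Complex.I • v)
    rwa [norm_smul, Complex.norm_I, one_mul] at this
  rw [norm_div]
  have h3 : ‖((fderiv ℝ g z v : ℝ) : ℂ) - Complex.I * ((fderiv ℝ g z (Complex.I • v) : ℝ) : ℂ)‖
      ≤ ‖fderiv ℝ g z‖ * ‖v‖ + ‖fderiv ℝ g z‖ * ‖v‖ := by
    refine (norm_sub_le _ _).trans (add_le_add ?_ ?_)
    · rwa [Complex.norm_real]
    · rw [norm_mul, Complex.norm_I, one_mul, Complex.norm_real]; exact h2
  have h4 : ‖(2 : ℂ)‖ = 2 := by simp
  rw [h4]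
  linarith

theorem dr_congr {g h : V n → ℝ} {z : V n} (hgh : g =ᶠ[𝓝 z] h) (v : V n) :
    dr g z v = dr h z v := by
  unfold dr
  rw [hgh.fderiv_eq]

theorem dr_const (c : ℝ) (z v : V n) : dr (fun _ => c) z v = 0 := by
  unfold dr
  simp

theorem dr_sum {ι : Type*} (s : Finset ι) (g : ι → V n → ℝ) (z v : V n)
    (hg : ∀ i ∈ s, DifferentiableAt ℝ (g i) z) :
    dr (fun x => ∑ i ∈ s, g i x) z v = ∑ i ∈ s, dr (g i) z v := by
  unfold dr
  rw [fderiv_fun_sum hg]
  simp only [FunLike.coe_sum, Finset.sum_apply, Complex.ofReal_sum, Finset.mul_sum,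
    ← Finset.sum_sub_distrib, Finset.sum_div]

theorem sq_norm_sum_le {ι : Type*} (s : Finset ι) (x : ι → ℂ) :
    ‖∑ i ∈ s, x i‖ ^ 2 ≤ s.card * ∑ i ∈ s, ‖x i‖ ^ 2 := by
  have h1 : ‖∑ i ∈ s, x i‖ ≤ ∑ i ∈ s, ‖x i‖ := norm_sum_le _ _
  have h2 : (∑ i ∈ s, ‖x i‖) ^ 2 ≤ s.card * ∑ i ∈ s, ‖x i‖ ^ 2 := sq_sum_le_card_mul_sum_sq
  refine le_trans ?_ h2
  exact pow_le_pow_left₀ (norm_nonneg _) h1 2

theorem diffAt_mix {F : V n → V n} {O : Set (V n)} (hF : DifferentiableOn ℂ F O)
    (Φ : Fin n → Fin n ⊕ Fin n) : DifferentiableOn ℂ (mix Φ F) O := by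
  refine differentiableOn_pi.2 fun i => ?_
  unfold mix
  rcases Φ i with j | j
  · exact (differentiable_apply j).differentiableOn
  · exact (differentiableOn_pi.1 hF) j

theorem contOn_Dm (hSMO : T_SMO) {O : Set (V n)} {Y : V n → V n} (hO : IsOpen O)
    (hY : DifferentiableOn ℂ Y O) : ContinuousOn (Dm Y) O := by
  unfold Dm
  refine continuousOn_finsetSum _ fun Φ _ => ?_
  exact ((H15.VG.contOn_det hSMO hO (diffAt_mix hY Φ)).norm).pow 2

/-- the pointwise energy estimate -/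
theorem energy_le {ι : Type*} [Fintype ι] (hPRD : T_PRD) (ψ c : ι → V n → ℝ) (U : ι → Set (V n))
    (hU : ∀ i, IsOpen (U i)) (hψ : ∀ i, ContDiff ℝ ∞ (ψ i)) (hs : ∀ i, tsupport (ψ i) ⊆ U i)
    (h01 : ∀ i x, 0 ≤ ψ i x ∧ ψ i x ≤ 1) (hc : ∀ i, ContDiffOn ℝ ∞ (c i) (U i)) (W : Set (V n))
    (hW : IsOpen W) (hW1 : ∀ x ∈ W, ∑ i, ψ i x = 1) (M : ℝ) (hM : ∀ i x, ‖fderiv ℝ (ψ i) x‖ ≤ M)
    (z : V n) (hz : z ∈ W) (v : V n) :
    ge (fun x => ∑ i, ψ i x * c i x) z v ≤ 2 * Fintype.card ι * ∑ i, ((U i).indicator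
      (fun z => ge (c i) z v + (c i z - 1) ^ 2 * (M ^ 2 * ‖v‖ ^ 2)) z) := by
  classical
  have hprod : ∀ i, DifferentiableAt ℝ (fun x => ψ i x * c i x) z := fun i =>
    ((H67.VG.contDiff_cutoff_mul (hU i) (hψ i) (hs i) (hc i)).differentiable (by simp)) z
  have hterm : ∀ i, dr (fun x => ψ i x * c i x) z v = ψ i z * dr (c i) z v
      + c i z * dr (ψ i) z v := by
    intro i
    by_cases hzi : z ∈ U i
    · exact (hPRD n z v).2.1 (ψ i) (c i) ((hψ i).differentiable (by simp) z)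
        (((hc i).contDiffAt ((hU i).mem_nhds hzi)).differentiableAt (by simp))
    · have hzt : z ∉ tsupport (ψ i) := fun h => hzi (hs i h)
      have h1 : ψ i z = 0 := image_eq_zero_of_notMem_tsupport hzt
      have h2 : dr (ψ i) z v = 0 := by
        unfold dr
        rw [H67.VG.fderiv_tsupport hzt]; simp
      have h3 : (fun x => ψ i x * c i x) =ᶠ[𝓝 z] fun _ => 0 := by
        filter_upwards [(isClosed_tsupport (ψ i)).isOpen_compl.mem_nhds hzt] with y hy
        rw [image_eq_zero_of_notMem_tsupport hy, zero_mul]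
      rw [dr_congr h3, dr_const, h1, h2]
      simp
  have hone : ∑ i, dr (ψ i) z v = 0 := by
    rw [← dr_sum Finset.univ ψ z v (fun i _ => (hψ i).differentiable (by simp) z)]
    have h3 : (fun x => ∑ i, ψ i x) =ᶠ[𝓝 z] fun _ => 1 := by
      filter_upwards [hW.mem_nhds hz] with y hy
      exact hW1 y hy
    rw [dr_congr h3, dr_const]
  have hdr : dr (fun x => ∑ i, ψ i x * c i x) z v
      = ∑ i, (ψ i z * dr (c i) z v + ((c i z : ℂ) - 1) * dr (ψ i) z v) := by
    rw [dr_sum Finset.univ _ z v (fun i _ => hprod i), Finset.sum_congr rfl fun i _ => hterm i]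
    have : ∑ i, (ψ i z * dr (c i) z v + ((c i z : ℂ) - 1) * dr (ψ i) z v)
        = ∑ i, (ψ i z * dr (c i) z v + (c i z : ℂ) * dr (ψ i) z v) - ∑ i, dr (ψ i) z v := by
      rw [← Finset.sum_sub_distrib]
      refine Finset.sum_congr rfl fun i _ => ?_
      ring
    rw [this, hone, sub_zero]
  have hbound : ∀ i, ‖(ψ i z : ℂ) * dr (c i) z v + ((c i z : ℂ) - 1) * dr (ψ i) z v‖ ^ 2
      ≤ 2 * (U i).indicator
      (fun z => ge (c i) z v + (c i z - 1) ^ 2 * (M ^ 2 * ‖v‖ ^ 2)) z := by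
    intro i
    by_cases hzi : z ∈ U i
    · rw [indicator_of_mem hzi]
      have h1 : ‖(ψ i z : ℂ) * dr (c i) z v + ((c i z : ℂ) - 1) * dr (ψ i) z v‖
          ≤ ‖dr (c i) z v‖ + |c i z - 1| * (M * ‖v‖) := by
        refine (norm_add_le _ _).trans (add_le_add ?_ ?_)
        · rw [norm_mul, Complex.norm_real, Real.norm_eq_abs, abs_of_nonneg (h01 i z).1]
          calc ψ i z * ‖dr (c i) z v‖ ≤ 1 * ‖dr (c i) z v‖ :=
                mul_le_mul_of_nonneg_right (h01 i z).2 (norm_nonneg _)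
            _ = _ := one_mul _
        · rw [norm_mul]
          have h2 : ‖(c i z : ℂ) - 1‖ = |c i z - 1| := by
            rw [← Complex.ofReal_one, ← Complex.ofReal_sub, Complex.norm_real, Real.norm_eq_abs]
          rw [h2]
          refine mul_le_mul_of_nonneg_left ?_ (abs_nonneg _)
          exact (dr_norm_le (ψ i) z v).trans (mul_le_mul_of_nonneg_right (hM i z) (norm_nonneg _))
      have h3 : ‖(ψ i z : ℂ) * dr (c i) z v + ((c i z : ℂ) - 1) * dr (ψ i) z v‖ ^ 2
          ≤ (‖dr (c i) z v‖ + |c i z - 1| * (M * ‖v‖)) ^ 2 :=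
        pow_le_pow_left₀ (norm_nonneg _) h1 2
      refine h3.trans ?_
      unfold ge
      have h4 : |c i z - 1| ^ 2 = (c i z - 1) ^ 2 := sq_abs _
      have h5 : (|c i z - 1| * (M * ‖v‖)) ^ 2 = (c i z - 1) ^ 2 * (M ^ 2 * ‖v‖ ^ 2) := by
        rw [mul_pow, mul_pow, h4]
      rw [← h5]
      nlinarith [sq_nonneg (‖dr (c i) z v‖ - |c i z - 1| * (M * ‖v‖))]
    · rw [indicator_of_notMem hzi]
      have hzt : z ∉ tsupport (ψ i) := fun h => hzi (hs i h)
      have h1 : ψ i z = 0 := image_eq_zero_of_notMem_tsupport hzt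
      have h2 : dr (ψ i) z v = 0 := by
        unfold dr
        rw [H67.VG.fderiv_tsupport hzt]; simp
      rw [h1, h2]; simp
  unfold ge at *
  rw [hdr]
  refine (sq_norm_sum_le _ _).trans ?_
  rw [Finset.card_univ]
  have h5 : ∑ i, ‖(ψ i z : ℂ) * dr (c i) z v + ((c i z : ℂ) - 1) * dr (ψ i) z v‖ ^ 2
      ≤ ∑ i, 2 * (U i).indicator
      (fun z => ‖dr (c i) z v‖ ^ 2 + (c i z - 1) ^ 2 * (M ^ 2 * ‖v‖ ^ 2)) z :=
    Finset.sum_le_sum fun i _ => hbound i
  rw [← Finset.mul_sum] at h5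
  have h6 : (0 : ℝ) ≤ Fintype.card ι := Nat.cast_nonneg _
  nlinarith [mul_le_mul_of_nonneg_left h5 h6]


theorem norm_sq_cf_le (hDOM : T_DOM) {F : V n → V n} {z : V n} (hF : DifferentiableAt ℂ F z)
    (Φ : Fin n → Fin n ⊕ Fin n) (k : Fin n) : ‖cf (mix Φ F) k z‖ ^ 2 ≤ Dm F z := by
  have h1 := (hDOM n F z hF).2.2.2.1 Φ k
  have h0 : 0 ≤ Dm F z := le_trans zero_le_one (hDOM n F z hF).1
  have h2 : ‖cf (mix Φ F) k z‖ ≤ Real.sqrt (Dm F z) := by
    refine (pi_norm_le_iff_of_nonneg (Real.sqrt_nonneg _)).2 fun i => ?_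
    exact Real.le_sqrt_of_sq_le (h1 i)
  calc ‖cf (mix Φ F) k z‖ ^ 2 ≤ Real.sqrt (Dm F z) ^ 2 :=
        pow_le_pow_left₀ (norm_nonneg _) h2 2
    _ = Dm F z := Real.sq_sqrt h0

theorem s2m (hSMO : T_SMO) (hPRD : T_PRD) (hDOM : T_DOM) (hMOP : T_MOP) (hS1M : T_S1M)
    (hCUI : T_CUI) : T_S2M := by
  classical
  intro n X _ _ ι _ A f I D hn hM K hKD hK
  have hop : IsOpen (D \ I) := (hMOP n X ι A f I D hM).1
  choose! r hr hrD c hc hc01 hcI hc1 hcE using fun z₀ (hz₀ : z₀ ∈ D) =>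
    hCUI n X ι A f I D hn hM z₀ hz₀
  obtain ⟨t, htK, htc⟩ := hK.elim_nhds_subcover (fun z => Metric.ball z (r z))
    (fun z hz => Metric.ball_mem_nhds z (hr z (hKD hz)))
  -- index type
  let J := {z : V n // z ∈ t}
  let U : J → Set (V n) := fun i => Metric.ball i.1 (r i.1)
  have hU : ∀ i, IsOpen (U i) := fun i => Metric.isOpen_ball
  have hiD : ∀ i : J, i.1 ∈ D := fun i => hKD (htK i.1 i.2)
  have hUD : ∀ i, U i ⊆ D := fun i => hrD i.1 (hiD i)
  have hKU : K ⊆ ⋃ i, U i := by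
    intro x hx
    obtain ⟨i, hi, hxi⟩ := mem_iUnion₂.1 (htc hx)
    exact mem_iUnion.2 ⟨⟨i, hi⟩, hxi⟩
  obtain ⟨ψ, hψ, hψc, hψs, hψ01, hψ1, W, hW, hKW, hW1⟩ := pou' hK U hU hKU
  -- bound of the derivatives
  obtain ⟨M, hM0, hMb⟩ : ∃ M : ℝ, 0 ≤ M ∧ ∀ i x, ‖fderiv ℝ (ψ i) x‖ ≤ M := by
    have h1 : ∀ i, ∃ C : ℝ, ∀ x, ‖fderiv ℝ (ψ i) x‖ ≤ C := fun i =>
      ((hψc i).fderiv ℝ).exists_bound_of_continuous ((hψ i).continuous_fderiv (by simp))
    choose C hC using h1
    refine ⟨∑ i, |C i|, Finset.sum_nonneg fun i _ => abs_nonneg _, fun i x => ?_⟩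
    exact (hC i x).trans ((le_abs_self _).trans
      (Finset.single_le_sum (f := fun i => |C i|) (fun i _ => abs_nonneg _) (Finset.mem_univ i)))
  have hcU : ∀ (i : J) j, ContDiffOn ℝ ∞ (c i.1 j) (U i) := fun i j => hc i.1 (hiD i) j
  refine ⟨fun j x => ∑ i : J, ψ i x * c i.1 j x, ?_, ?_, ?_, ?_, ?_⟩
  · intro j
    exact ContDiff.sum fun i _ => H67.VG.contDiff_cutoff_mul (hU i) (hψ i) (hψs i) (hcU i j)
  · intro j z
    constructor
    · exact Finset.sum_nonneg fun i _ =>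
        mul_nonneg (hψ01 i z).1 (hc01 i.1 (hiD i) j z).1
    · refine le_trans (Finset.sum_le_sum fun i _ => ?_) (hψ1 z)
      exact mul_le_of_le_one_right (hψ01 i z).1 (hc01 i.1 (hiD i) j z).2
  · intro j z hz
    have h1 : ∀ i : J, ∀ᶠ z' in 𝓝 z, ψ i z' * c i.1 j z' = 0 := by
      intro i
      by_cases hzi : z ∈ U i
      · filter_upwards [hcI i.1 (hiD i) j z ⟨hzi, hz.2⟩] with y hy
        rw [hy, mul_zero]
      · have hzt : z ∉ tsupport (ψ i) := fun h => hzi (hψs i h)
        filter_upwards [(isClosed_tsupport (ψ i)).isOpen_compl.mem_nhds hzt] with y hy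
        rw [image_eq_zero_of_notMem_tsupport hy, zero_mul]
    filter_upwards [eventually_all.2 h1] with y hy
    exact Finset.sum_eq_zero fun i _ => hy i
  · intro z hz
    rw [← hW1 z (hKW hz.1)]
    refine tendsto_finsetSum _ fun i _ => ?_
    by_cases hzi : z ∈ U i
    · have h1 := (hc1 i.1 (hiD i) z ⟨hzi, hz.2⟩).const_mul (ψ i z)
      rwa [mul_one] at h1
    · have hzt : z ∉ tsupport (ψ i) := fun h => hzi (hψs i h)
      have h1 : ψ i z = 0 := image_eq_zero_of_notMem_tsupport hzt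
      simp only [h1, zero_mul]
      exact tendsto_const_nhds
  · intro a Φ k
    set F := FF A f a with hF
    set X' : V n → V n := cf (mix Φ F) k with hX'
    set S : Set (V n) := (K \ I) ∩ Cb A f a (5 / 2) with hS
    -- the open set where everything is smooth
    have hOo : IsOpen {z | z ∈ D \ I ∧ f z ∈ (A.φ a).source} :=
      hM.cont.isOpen_inter_preimage hop (A.φ a).open_source
    set O : Set (V n) := {z | z ∈ D \ I ∧ f z ∈ (A.φ a).source} with hO
    have hFO : DifferentiableOn ℂ F O := hM.hol a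
    have hSO : S ⊆ O := fun z hz => ⟨⟨hKD hz.1.1, hz.1.2⟩, hz.2.1⟩
    have hFat : ∀ z ∈ O, DifferentiableAt ℂ F z := fun z hz =>
      hFO.differentiableAt (hOo.mem_nhds hz)
    have hX'c : ContinuousOn X' O := H15.VG.contOn_cf hSMO hOo (diffAt_mix hFO Φ) k
    have hDmc : ContinuousOn (Dm F) O := contOn_Dm hSMO hOo hFO
    have hSm : MeasurableSet S := by
      have h1 : IsOpen (O ∩ F ⁻¹' (Metric.closedBall (0 : V n) (5 / 2))ᶜ) :=
        hFO.continuousOn.isOpen_inter_preimage hOo Metric.isClosed_closedBall.isOpen_compl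
      have h2 : S = K ∩ (O \ (O ∩ F ⁻¹' (Metric.closedBall (0 : V n) (5 / 2))ᶜ)) := by
        ext z
        constructor
        · intro hz
          exact ⟨hz.1.1, hSO hz, fun h => h.2 hz.2.2⟩
        · rintro ⟨h3, h4, h5⟩
          refine ⟨⟨h3, h4.1.2⟩, h4.2, ?_⟩
          by_contra h6
          exact h5 ⟨h4, h6⟩
      rw [h2]
      exact hK.measurableSet.inter (hOo.measurableSet.diff h1.measurableSet)
    have hDm0 : ∀ z, 0 ≤ Dm F z := fun z => Finset.sum_nonneg fun Φ _ => by positivity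
    -- the bound
    let G : ℕ → J → V n → ℝ≥0∞ := fun j i z => ENNReal.ofReal (ge (c i.1 j) z (X' z))
    let E : ℕ → J → V n → ℝ≥0∞ := fun j i z =>
      ENNReal.ofReal ((c i.1 j z - 1) ^ 2 * (M ^ 2 * Dm F z))
    have hGm : ∀ j i, AEMeasurable (G j i) (volume.restrict (S ∩ U i)) := by
      intro j i
      have h1 : ContinuousOn (fun z => dr (c i.1 j) z (X' z)) (O ∩ U i) :=
        H15.VG.contOn_dr (hOo.inter (hU i))
          (((hcU i j).mono inter_subset_right).of_le (by exact_mod_cast le_top))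
          (hX'c.mono inter_subset_left)
      have h2 : AEMeasurable (fun z => ge (c i.1 j) z (X' z)) (volume.restrict (O ∩ U i)) :=
        ((h1.norm.pow 2).aemeasurable (hOo.inter (hU i)).measurableSet)
      exact (h2.ennreal_ofReal).mono_set (inter_subset_inter_left _ hSO)
    have hEm : ∀ j i, AEMeasurable (E j i) (volume.restrict (S ∩ U i)) := by
      intro j i
      have h1 : ContinuousOn (fun z => (c i.1 j z - 1) ^ 2 * (M ^ 2 * Dm F z)) (O ∩ U i) := by
        have h3 : ContinuousOn (c i.1 j) (O ∩ U i) :=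
          (hcU i j).continuousOn.mono inter_subset_right
        exact ((h3.sub continuousOn_const).pow 2).mul
          (continuousOn_const.mul (hDmc.mono inter_subset_left))
      have h2 := h1.aemeasurable (μ := volume) (hOo.inter (hU i)).measurableSet
      exact (h2.ennreal_ofReal).mono_set (inter_subset_inter_left _ hSO)
    have hmeasU : ∀ i, MeasurableSet (U i) := fun i => (hU i).measurableSet
    have hle : ∀ j, ∫⁻ z in S, ENNReal.ofReal (ge (fun x => ∑ i : J, ψ i x * c i.1 j x) z (X' z))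
        ≤ ENNReal.ofReal (2 * Fintype.card J) *
          ∑ i : J, ((∫⁻ z in S ∩ U i, G j i z) + ∫⁻ z in S ∩ U i, E j i z) := by
      intro j
      have hGE : ∀ i, AEMeasurable (fun z => (U i).indicator (fun z => G j i z + E j i z) z)
          (volume.restrict S) := by
        intro i
        rw [aemeasurable_indicator_iff (hmeasU i), Measure.restrict_restrict (hmeasU i),
          inter_comm]
        exact (hGm j i).add (hEm j i)
      calc ∫⁻ z in S, ENNReal.ofReal (ge (fun x => ∑ i : J, ψ i x * c i.1 j x) z (X' z))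
          ≤ ∫⁻ z in S, ENNReal.ofReal (2 * Fintype.card J) *
              ∑ i : J, (U i).indicator (fun z => G j i z + E j i z) z := by
            refine setLIntegral_mono' hSm fun z hz => ?_
            have h1 := energy_le hPRD ψ (fun i => c i.1 j) U hU hψ hψs hψ01
              (fun i => hcU i j) W hW hW1 M hMb z (hKW hz.1.1) (X' z)
            refine (ENNReal.ofReal_le_ofReal h1).trans ?_
            rw [ENNReal.ofReal_mul (by positivity)]
            refine mul_le_mul_right ?_ _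
            have hnn : ∀ i ∈ (Finset.univ : Finset J), 0 ≤ (U i).indicator
                (fun z_1 => ge (c i.1 j) z_1 (X' z) + (c i.1 j z_1 - 1) ^ 2 *
                  (M ^ 2 * ‖X' z‖ ^ 2)) z := by
              intro i _
              refine indicator_nonneg (fun w _ => ?_) z
              have : 0 ≤ ge (c i.1 j) w (X' z) := sq_nonneg _
              positivity
            rw [ENNReal.ofReal_sum_of_nonneg hnn]
            refine Finset.sum_le_sum fun i _ => ?_
            by_cases hzi : z ∈ U i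
            · have hg0 : 0 ≤ ge (c i.1 j) z (X' z) := sq_nonneg _
              rw [indicator_of_mem hzi, indicator_of_mem hzi,
                ENNReal.ofReal_add hg0 (by positivity)]
              refine add_le_add le_rfl (ENNReal.ofReal_le_ofReal ?_)
              refine mul_le_mul_of_nonneg_left ?_ (sq_nonneg _)
              refine mul_le_mul_of_nonneg_left ?_ (sq_nonneg _)
              exact norm_sq_cf_le hDOM (hFat z (hSO hz)) Φ k
            · rw [indicator_of_notMem hzi, indicator_of_notMem hzi]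
              simp
        _ = ENNReal.ofReal (2 * Fintype.card J) *
              ∑ i : J, ∫⁻ z in S, (U i).indicator (fun z => G j i z + E j i z) z := by
            rw [lintegral_const_mul' _ _ ENNReal.ofReal_ne_top,
              lintegral_finsetSum' _ fun i _ => hGE i]
        _ = _ := by
            congr 1
            refine Finset.sum_congr rfl fun i _ => ?_
            rw [lintegral_indicator (hmeasU i), Measure.restrict_restrict (hmeasU i), inter_comm,
              lintegral_add_left' (hGm j i)]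
    have hG0 : ∀ i : J, Tendsto (fun j => ∫⁻ z in S ∩ U i, G j i z) atTop (𝓝 0) := by
      intro i
      refine tendsto_of_tendsto_of_tendsto_of_le_of_le tendsto_const_nhds
        (hcE i.1 (hiD i) a Φ k) (fun j => zero_le) (fun j => ?_)
      exact lintegral_mono_set fun z hz => ⟨⟨hz.2, hz.1.1.2⟩, hz.1.2⟩
    have hE0 : ∀ i : J, Tendsto (fun j => ∫⁻ z in S ∩ U i, E j i z) atTop (𝓝 0) := by
      intro i
      have h1 : Tendsto (fun j => ∫⁻ z in S ∩ U i, E j i z) atTop
          (𝓝 (∫⁻ z in S ∩ U i, 0)) := by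
        refine tendsto_lintegral_of_dominated_convergence'
          (fun z => ENNReal.ofReal (M ^ 2 * Dm F z)) (fun j => hEm j i) ?_ ?_ ?_
        · intro j
          refine ae_of_all _ fun z => ENNReal.ofReal_le_ofReal ?_
          have h2 := hc01 i.1 (hiD i) j z
          have h3 : (c i.1 j z - 1) ^ 2 ≤ 1 := by nlinarith [h2.1, h2.2]
          have h4 : 0 ≤ M ^ 2 * Dm F z := mul_nonneg (sq_nonneg _) (hDm0 z)
          calc (c i.1 j z - 1) ^ 2 * (M ^ 2 * Dm F z) ≤ 1 * (M ^ 2 * Dm F z) :=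
                mul_le_mul_of_nonneg_right h3 h4
            _ = _ := one_mul _
        · have h2 := hS1M n X ι A f I D hn hM K hKD hK a
          have h3 : ∫⁻ z in S ∩ U i, ENNReal.ofReal (M ^ 2 * Dm F z)
              ≤ ENNReal.ofReal (M ^ 2) * ∫⁻ z in S, ENNReal.ofReal (Dm F z) := by
            refine (lintegral_mono_set (inter_subset_left : S ∩ U i ⊆ S)).trans ?_
            rw [← lintegral_const_mul' _ _ ENNReal.ofReal_ne_top]
            refine lintegral_mono fun z => ?_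
            rw [ENNReal.ofReal_mul (sq_nonneg _)]
          exact (h3.trans_lt (ENNReal.mul_lt_top ENNReal.ofReal_lt_top h2)).ne
        · rw [ae_restrict_iff' (hSm.inter (hmeasU i))]
          refine ae_of_all _ fun z hz => ?_
          have h2 := hc1 i.1 (hiD i) z ⟨hz.2, hz.1.1.2⟩
          have h3 : Tendsto (fun j => (c i.1 j z - 1) ^ 2 * (M ^ 2 * Dm F z)) atTop
              (𝓝 ((1 - 1) ^ 2 * (M ^ 2 * Dm F z))) :=
            ((h2.sub_const 1).pow 2).mul_const _
          have h4 := ENNReal.tendsto_ofReal h3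
          simpa using h4
      simpa using h1
    have hsum : Tendsto (fun j => ENNReal.ofReal (2 * Fintype.card J) *
          ∑ i : J, ((∫⁻ z in S ∩ U i, G j i z) + ∫⁻ z in S ∩ U i, E j i z)) atTop (𝓝 0) := by
      have h1 : Tendsto (fun j =>
          ∑ i : J, ((∫⁻ z in S ∩ U i, G j i z) + ∫⁻ z in S ∩ U i, E j i z)) atTop
          (𝓝 (∑ i : J, (0 + 0))) :=
        tendsto_finsetSum _ fun i _ => (hG0 i).add (hE0 i)
      have h2 := ENNReal.Tendsto.const_mul h1 (Or.inr (ENNReal.ofReal_ne_top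
        (r := 2 * Fintype.card J)))
      simpa using h2
    exact tendsto_of_tendsto_of_tendsto_of_le_of_le tendsto_const_nhds hsum
      (fun j => zero_le) hle

end Pool.Agent.H17.VG
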